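import Mathlib
import Pool.Agent.H68.L.R_seed8.Y703.CQ.Stm

/-!
# The exact proportion for a general class of primes (after project CQ)

`D` runs over the products of different primes from two sets of residue classes modulo `M`: the
split primes (all the quadratic characters modulo `M` are trivial) and the silent primes. The
symmetric matrix over `𝔽₂` indexed by the split primes of `D` (the Laplacian of the quadratic
symbols, plus the symbols of the silent primes and an arbitrary function on the diagonal)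
is nonsingular for exactly the proportion `∏_{i ≥ 0} (1 - 2^{-(2i+1)}) = 0.419...`.
Statements of the parts, an adaptation of projects CQ (helper703) and SQ (helper413) of the library
to a general modulus.
-/

set_option autoImplicit false
set_option linter.unusedVariables false

open scoped Classical

namespace Pool.Agent.H68.G

open Finset
open Pool.Agent.Y703.CX (sm la jj XX eL zz kk S_SIE)
open Pool.Agent.Y703.CQ (nr sg prs HB S_EQ ext GdA S_SYM S_C2 S_LA c2)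

/-- the parameters: the modulus, the classes of the split primes, of the silent primes, and of the
numbers `D` -/
structure Par where
  /-- the modulus -/
  M : ℕ
  /-- the classes of the split primes -/
  A : Finset ℕ
  /-- the classes of the silent primes -/
  B : Finset ℕ
  /-- the classes of the numbers `D` -/
  T : Finset ℕ

/-- the label of a prime: `1` if it is split -/
def lab (P : Par) (p : ℕ) : ℕ := if p % P.M ∈ P.A then 1 else 0

/-- the split primes -/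
def Sp (P : Par) (p : ℕ) : Prop := p.Prime ∧ lab P p = 1 ∧ p % 4 = 1

/-- the silent primes -/
def In (P : Par) (r : ℕ) : Prop := r.Prime ∧ lab P r ≠ 1 ∧ r % P.M ∈ P.B

/-- the density of the split primes -/
noncomputable def dA (P : Par) : ℝ := (P.A.card : ℝ) / (Nat.totient P.M : ℝ)

/-- the density of the silent primes -/
noncomputable def dB (P : Par) : ℝ := (P.B.card : ℝ) / (Nat.totient P.M : ℝ)

/-- the density of the primes of the class -/
noncomputable def dl (P : Par) : ℝ := dA P + dB P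

/-- the saving in the exponents -/
noncomputable def sk (P : Par) : ℝ := min (dA P) (dB P) / 16

/-- the hypotheses on the parameters -/
structure Ok (P : Par) : Prop where
  pos : 0 < P.M
  h8 : 8 ∣ P.M
  hA : ∀ a ∈ P.A, a < P.M ∧ Nat.Coprime a P.M ∧ a % 4 = 1
  hB : ∀ a ∈ P.B, a < P.M ∧ Nat.Coprime a P.M
  dis : Disjoint P.A P.B
  one : 1 ∈ P.A
  neB : P.B.Nonempty
  ex : ∃ L : Finset ℕ, (∀ l ∈ L, l.Prime ∧ l ≠ 2 ∧ l ∣ P.M) ∧
    (∀ a ∈ P.A, a % 8 = 1 ∧ ∀ l ∈ L, jacobiSym (a : ℤ) l = 1) ∧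
    Nat.totient P.M ≤ 2 ^ (L.card + 2) * P.A.card
  cor : ∃ Q : Finset ℕ, (∀ q ∈ Q, In P q) ∧ ∀ S : Finset ℕ, (∀ p ∈ S, Sp P p ∨ In P p) →
    ∃ U ⊆ Q, ((∏ p ∈ S, p) * ∏ p ∈ U, p) % P.M ∈ P.T

/-- a function set to zero on the silent primes -/
def cu (P : Par) (x : ℕ → ZMod 2) (q : ℕ) : ZMod 2 := if lab P q = 1 then x q else 0

/-- the kernel of the matrix -/
def Sol (P : Par) (f : ℕ → ZMod 2) (S : Finset ℕ) (x : ℕ → ZMod 2) : Prop :=
  ∀ p ∈ S, lab P p = 1 → ∑ q ∈ S, nr p q * (cu P x q + x p) + f p * x p = 0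

/-- the good sets: the matrix is nonsingular -/
def Gd (P : Par) (f : ℕ → ZMod 2) (S : Finset ℕ) : Prop :=
  ∀ x, Sol P f S x → ∀ p ∈ S, lab P p = 1 → x p = 0

/-- the class of the sets of primes -/
def Cl (P : Par) (S : Finset ℕ) : Prop :=
  (∀ p ∈ S, Sp P p ∨ In P p) ∧ (∏ p ∈ S, p) % P.M ∈ P.T

/-- the sets of the class with product at most `X` -/
noncomputable def SS (P : Par) (X : ℕ) : Finset (Finset ℕ) :=
  (range (X + 1)).powerset.filter fun S => Cl P S ∧ ∏ p ∈ S, p ≤ X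

/-- FINAL: the proportion of the good sets -/
def S_DQ : Prop := ∀ (P : Par) (f : ℕ → ZMod 2), Ok P → Filter.Tendsto
  (fun X : ℕ => (((SS P X).filter (Gd P f)).card : ℝ) / ((SS P X).card : ℝ)) Filter.atTop (nhds c2)

/-- FINAL, in terms of the numbers `D`. -/
def S_DEN : Prop := ∀ (P : Par) (f : ℕ → ZMod 2), Ok P → Filter.Tendsto
  (fun X : ℕ => (((Icc 1 X).filter fun D => Squarefree D ∧ Cl P D.primeFactors ∧
      Gd P f D.primeFactors).card : ℝ) /
    (((Icc 1 X).filter fun D => Squarefree D ∧ Cl P D.primeFactors).card : ℝ))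
  Filter.atTop (nhds c2)

/-- the translation. -/
def S_NS : Prop := S_DQ → S_DEN

/-- bilinear sums of quadratic symbols. -/
def S_BIL : Prop := ∃ C : ℝ, 1 ≤ C ∧ ∀ (P Q : Finset ℕ) (A B z : ℕ) (c d : ℕ → ℂ),
  (∀ p ∈ P, p.Prime ∧ p % 4 = 1 ∧ p ≤ A) → (∀ q ∈ Q, q.Prime ∧ q ≠ 2 ∧ q ≤ B) →
  Disjoint P Q → 1 ≤ z → z ≤ A → z ≤ B → (∀ p, ‖c p‖ ≤ 1) → (∀ q, ‖d q‖ ≤ 1) →
  ‖∑ p ∈ P, ∑ q ∈ Q, c p * d q * sg (nr p q)‖ ^ 12 * z ≤ C * ((A : ℝ) * B) ^ 12

/-- the labels of the large split primes with respect to the small ones are not degenerate -/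
def Nd (P : Par) (S₀ S₁ : Finset ℕ) : Prop :=
  ∀ w : ℕ → ZMod 2, (∃ u ∈ S₀, lab P u = 1 ∧ w u ≠ 0) →
    ∃ p ∈ S₁, lab P p = 1 ∧ ∑ u ∈ S₀.filter (fun u => lab P u = 1), w u * nr p u ≠ 0

/-- the count in a box. -/
def S_BOX : Prop := S_EQ → S_LA → ∀ (P : Par), Ok P → ∀ (f : ℕ → ZMod 2) (ι : Type) [Fintype ι]
  [LinearOrder ι]
  (J1 : Finset ι) (C : ι → Finset ℕ) (X : ι → ℕ) (κ : ℝ) (S₀ : Finset ℕ), 0 ≤ κ →
  (∀ i, (C i).card ≤ X i) → HB J1 C X κ → (∀ u ∈ S₀, u.Prime ∧ u ≠ 2) →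
  (∀ i, ∀ p ∈ C i, p.Prime ∧ p ≠ 2 ∧ p ∉ S₀ ∧ (i ∈ J1 ↔ lab P p = 1)) →
  (∀ i l, i ≠ l → Disjoint (C i) (C l)) → (∃ i, i ∉ J1) →
  |(((Fintype.piFinset C).filter fun p => Nd P S₀ (univ.image p) ∧
        Gd P f (S₀ ∪ univ.image p)).card : ℝ) -
      c2 * (((Fintype.piFinset C).filter fun p => Nd P S₀ (univ.image p)).card : ℝ)| ≤
    2 * (4 ^ S₀.card / 2 ^ J1.card) *
      (((Fintype.piFinset C).filter fun p => Nd P S₀ (univ.image p)).card : ℝ) +
    2 ^ ((2 * S₀.card + 1) * Fintype.card ι + (prs J1).card) * (κ * ∏ j, (X j : ℝ))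

/-- the regular sets -/
noncomputable def RR (P : Par) (X z H k V : ℕ) : Finset (Finset ℕ) :=
  (SS P X).filter fun S => Set.InjOn (jj H) (la z S : Set ℕ) ∧ S.card ≤ k ∧
    (∏ p ∈ sm z S, p) * ∏ p ∈ la z S, XX H (jj H p) ≤ X ∧
    2 * (sm z S).card + V < ((la z S).filter fun p => lab P p = 1).card ∧
    ∃ p ∈ la z S, lab P p ≠ 1

/-- the sum over the boxes. -/
def S_KEY : Prop := S_BIL → S_EQ → S_LA → S_BOX → ∃ C : ℝ, 1 ≤ C ∧
  ∀ (P : Par) (f : ℕ → ZMod 2) (X z H k V N : ℕ) (κ : ℝ), Ok P → 1 ≤ X → 1 ≤ H → 1 ≤ z →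
  0 ≤ κ → C ≤ κ ^ 12 * z → (H : ℝ) * Real.log X < N →
  |(((RR P X z H k V).filter fun S => Nd P (sm z S) (la z S) ∧ Gd P f S).card : ℝ) -
      c2 * (((RR P X z H k V).filter fun S => Nd P (sm z S) (la z S)).card : ℝ)| ≤
    2 * (1 / 2 : ℝ) ^ V * ((RR P X z H k V).card : ℝ) +
    ((P.M + 1) * (N + 1) : ℝ) ^ k * (3 ^ (3 * k ^ 2) * κ) * (X * (1 + Real.log X))

/-- sets with many primes, sets near the boundary, sets with two primes in a block. -/
structure CntP : Prop where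
  many : ∀ (P : Par) (X k : ℕ), Ok P → 1 ≤ X →
    (((SS P X).filter fun S => k < S.card).card : ℝ) * 2 ^ k ≤ X * (1 + Real.log X)
  cut : ∀ (P : Par) (X z H k : ℕ), Ok P → 1 ≤ X → 1 ≤ H →
    (((SS P X).filter fun S => S.card ≤ k ∧
      X < (∏ p ∈ sm z S, p) * ∏ p ∈ la z S, XX H (jj H p)).card : ℝ) ≤ X * k / H + 1
  coll : ∀ (P : Par) (X z H : ℕ), Ok P → 1 ≤ X → 1 ≤ H → (((SS P X).filter fun S =>
    ¬ Set.InjOn (jj H) (la z S : Set ℕ)).card : ℝ) ≤ 4 * X * (1 + Real.log X) / H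

/-- the sets of split primes on which the product of the primes in `W` is a square -/
noncomputable def HD (P : Par) (W : Finset ℕ) (T : ℕ) : Finset (Finset ℕ) :=
  (range (T + 1)).powerset.filter fun S => (∀ p ∈ S, Sp P p ∧ p ∉ W ∧ ∑ u ∈ W, nr p u = 0) ∧
    ∏ p ∈ S, p ≤ T

/-- the logarithmic density for a nontrivial quadratic character. -/
def S_HAL : Prop := ∀ P : Par, Ok P → ∃ C : ℝ, 1 ≤ C ∧ ∀ (W : Finset ℕ) (T : ℕ), W.Nonempty →
  (∀ u ∈ W, Sp P u) → 2 ≤ T →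
  ∑ S ∈ HD P W T, (1 : ℝ) / ((∏ p ∈ S, p : ℕ) : ℝ) ≤
    C * (Real.log ((∏ u ∈ W, u : ℕ) : ℝ)) ^ (1 / 2 : ℝ) * (Real.log T) ^ (dA P / 2 : ℝ)

/-- Mertens' theorem. -/
def S_MER : Prop := ∀ P : Par, Ok P → ∀ a : ℕ, a < P.M → Nat.Coprime a P.M → ∃ C : ℝ, ∀ y : ℕ,
  3 ≤ y →
  |∑ p ∈ (range (y + 1)).filter (fun p => p.Prime ∧ p % P.M = a), (1 : ℝ) / p -
    1 / (Nat.totient P.M : ℝ) * Real.log (Real.log y)| ≤ C

/-- many primes in the class of one. -/
def S_CHE : Prop := ∀ P : Par, Ok P → ∃ (c : ℝ) (Y₀ : ℕ), 0 < c ∧ ∀ Y : ℕ, Y₀ ≤ Y →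
  c * Y / Real.log Y ≤ (((range (Y + 1)).filter fun p => p.Prime ∧ p % P.M = 1).card : ℝ)

/-- few sets have degenerate labels. -/
def S_BAD : Prop := S_SIE → S_HAL → S_MER → ∀ P : Par, Ok P →
  ∃ (C : ℝ) (X₀ : ℕ), ∀ X : ℕ, X₀ ≤ X →
  (((SS P X).filter fun S => S.card ≤ kk X ∧ ¬ Nd P (sm (zz X) S) (la (zz X) S)).card : ℝ) ≤
    C * X * (Real.log X) ^ (-1 + dl P - sk P : ℝ)

/-- few sets have few large split primes or no large silent prime. -/
def S_FEW : Prop := S_SIE → S_MER → ∀ (P : Par) (V : ℕ), Ok P →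
  ∃ (C : ℝ) (X₀ : ℕ), ∀ X : ℕ, X₀ ≤ X →
  (((SS P X).filter fun S => ((la (zz X) S).filter fun p => lab P p = 1).card ≤
      2 * (sm (zz X) S).card + V ∨ ∀ p ∈ la (zz X) S, lab P p = 1).card : ℝ) ≤
    C * X * (Real.log X) ^ (-1 + dl P - sk P : ℝ)

/-- the lower bound for the size of the class. -/
def S_LOW : Prop := S_MER → S_CHE → ∀ P : Par, Ok P →
  ∃ (c : ℝ) (X₀ : ℕ), 0 < c ∧ ∀ X : ℕ, X₀ ≤ X →
  c * X * (Real.log X) ^ (-1 + dl P : ℝ) ≤ ((SS P X).card : ℝ)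

/-! ### simple facts -/

theorem lab_iff {P : Par} {p : ℕ} : lab P p = 1 ↔ p % P.M ∈ P.A := by
  unfold lab
  split_ifs with h
  · simp [h]
  · simp [h]

theorem Ok.mod4 {P : Par} (h : Ok P) {p : ℕ} (hp : lab P p = 1) : p % 4 = 1 := by
  have h1 := (h.hA _ (lab_iff.1 hp)).2.2
  have h4 : 4 ∣ P.M := (by norm_num : 4 ∣ 8).trans h.h8
  rwa [Nat.mod_mod_of_dvd p h4] at h1

theorem Ok.cop {P : Par} (h : Ok P) {p : ℕ} (hp : Sp P p ∨ In P p) : Nat.Coprime p P.M := by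
  have h1 : Nat.Coprime (p % P.M) P.M := by
    rcases hp with hp | hp
    · exact (h.hA _ (lab_iff.1 hp.2.1)).2.1
    · exact (h.hB _ hp.2.2).2
  unfold Nat.Coprime at h1 ⊢
  rw [Nat.gcd_comm, Nat.gcd_rec]
  exact h1

theorem Ok.ne_two {P : Par} (h : Ok P) {p : ℕ} (hp : Sp P p ∨ In P p) : p ≠ 2 := by
  rintro rfl
  have h1 := h.cop hp
  have h2 : 2 ∣ P.M := (by norm_num : 2 ∣ 8).trans h.h8
  have h3 := Nat.dvd_gcd (dvd_refl 2) h2
  unfold Nat.Coprime at h1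
  rw [h1] at h3
  omega

theorem pr1 {P : Par} {p : ℕ} (h : Sp P p ∨ In P p) : p.Prime := by
  rcases h with h | h
  · exact h.1
  · exact h.1

theorem Ok.tot {P : Par} (h : Ok P) : 0 < (Nat.totient P.M : ℝ) := by
  exact_mod_cast Nat.totient_pos.2 h.pos

theorem Ok.dA_pos {P : Par} (h : Ok P) : 0 < dA P := by
  unfold dA
  have : 0 < P.A.card := Finset.card_pos.2 ⟨1, h.one⟩
  have h2 : (0 : ℝ) < P.A.card := by exact_mod_cast this
  exact div_pos h2 h.tot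

theorem Ok.dB_pos {P : Par} (h : Ok P) : 0 < dB P := by
  unfold dB
  have : 0 < P.B.card := Finset.card_pos.2 h.neB
  have h2 : (0 : ℝ) < P.B.card := by exact_mod_cast this
  exact div_pos h2 h.tot

theorem Ok.dl_le {P : Par} (h : Ok P) : dl P ≤ 1 := by
  unfold dl dA dB
  rw [← add_div, div_le_one h.tot]
  have h1 : (P.A ∪ P.B).card ≤ Nat.totient P.M := by
    rw [Nat.totient_eq_card_coprime]
    refine Finset.card_le_card ?_
    intro a ha
    rw [mem_filter, mem_range]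
    rcases mem_union.1 ha with ha | ha
    · exact ⟨(h.hA a ha).1, (h.hA a ha).2.1.symm⟩
    · exact ⟨(h.hB a ha).1, (h.hB a ha).2.symm⟩
  rw [Finset.card_union_of_disjoint h.dis] at h1
  exact_mod_cast h1

theorem Ok.dl_pos {P : Par} (h : Ok P) : 0 < dl P := by
  unfold dl
  have := h.dA_pos
  have := h.dB_pos
  linarith

theorem Ok.sk_pos {P : Par} (h : Ok P) : 0 < sk P := by
  unfold sk
  have := lt_min h.dA_pos h.dB_pos
  linarith

theorem sk_le_A (P : Par) : sk P ≤ dA P / 16 := by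
  unfold sk
  have := min_le_left (dA P) (dB P)
  linarith

theorem sk_le_B (P : Par) : sk P ≤ dB P / 16 := by
  unfold sk
  have := min_le_right (dA P) (dB P)
  linarith

end Pool.Agent.H68.G
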