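import Pool.Agent.H68.G.Stm
import Pool.Agent.H68.L.R_seed8.R413.SQ.BIL

/-!
# Bilinear sums of quadratic symbols (from the library)
-/

set_option autoImplicit false

namespace Pool.Agent.H68.G.BIL

open Pool.Agent.H68.G

theorem t_BIL : S_BIL := Pool.Agent.R413.SQ.BIL.t_BIL

end Pool.Agent.H68.G.BIL
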