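import Pool.Agent.H68.G.Stm
import Pool.Agent.H68.L.R_seed8.TH423.SH.PAIP

/-!
Many primes in the class of one (after helper302's file for project CQ).
-/

set_option autoImplicit false

open Finset Filter

namespace Pool.Agent.H68.G.CHE

open Pool.Agent.H68.G

theorem t_CHE : S_CHE := by
  intro P hP
  have hM := hP.pos
  have hM8 : 8 ≤ P.M := Nat.le_of_dvd hM hP.h8
  obtain ⟨x₀, hx₀⟩ := Pool.Agent.TH423.SH.pai P.M (by omega) (1 / 2) (1 / 4) (by norm_num)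
    (by norm_num)
  have htot := hP.tot
  refine ⟨1 / (8 * (Nat.totient P.M : ℝ)), max 4 ⌈x₀⌉₊, by positivity, ?_⟩
  intro Y hY
  have hY4 : 4 ≤ Y := le_trans (le_max_left _ _) hY
  have hYx : x₀ ≤ (Y : ℝ) := (Nat.le_ceil x₀).trans (by exact_mod_cast (le_max_right _ _).trans hY)
  have hY4' : (4 : ℝ) ≤ Y := by exact_mod_cast hY4
  have hdiv1 : ((Y / 2 : ℕ) : ℝ) ≤ (Y : ℝ) / 2 := Nat.cast_div_le
  have hdiv2 : (Y : ℝ) / 2 ≤ ((Y / 2 + 1 : ℕ) : ℝ) := by
    have : Y < 2 * (Y / 2 + 1) := by omega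
    have : (Y : ℝ) < 2 * ((Y / 2 + 1 : ℕ) : ℝ) := by exact_mod_cast this
    linarith
  have hlog : 0 < Real.log Y := Real.log_pos (by linarith)
  have h := hx₀ Y hYx (Y / 2 + 1) Y 1 hdiv2 (by linarith)
    (by push_cast; linarith) (Nat.coprime_one_left _)
  have e1 : 1 % P.M = 1 := Nat.mod_eq_of_lt (by omega)
  rw [e1] at h
  have h1 := (abs_le.mp h).1
  have hsub : (Ioc (Y / 2 + 1) Y).filter (fun q => q.Prime ∧ q % P.M = 1) ⊆
      (range (Y + 1)).filter fun p => p.Prime ∧ p % P.M = 1 := by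
    intro q hq
    rw [mem_filter, mem_Ioc] at hq
    rw [mem_filter, mem_range]
    exact ⟨by omega, hq.2⟩
  have hcard : (((Ioc (Y / 2 + 1) Y).filter (fun q => q.Prime ∧ q % P.M = 1)).card : ℝ) ≤
      (((range (Y + 1)).filter fun p => p.Prime ∧ p % P.M = 1).card : ℝ) := by
    exact_mod_cast Finset.card_le_card hsub
  refine le_trans ?_ hcard
  have h2 : (1 / 2 : ℝ) * (((Y : ℝ) - ((Y / 2 + 1 : ℕ) : ℝ)) /
      ((Nat.totient P.M : ℝ) * Real.log Y)) ≤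
      (((Ioc (Y / 2 + 1) Y).filter (fun q => q.Prime ∧ q % P.M = 1)).card : ℝ) := by
    linarith
  refine le_trans ?_ h2
  have h3 : (Y : ℝ) / 4 ≤ (Y : ℝ) - ((Y / 2 + 1 : ℕ) : ℝ) := by push_cast; linarith
  have h4 : (Y : ℝ) / 4 / ((Nat.totient P.M : ℝ) * Real.log Y) ≤
      ((Y : ℝ) - ((Y / 2 + 1 : ℕ) : ℝ)) / ((Nat.totient P.M : ℝ) * Real.log Y) := by
    apply div_le_div_of_nonneg_right h3
    positivity
  calc 1 / (8 * (Nat.totient P.M : ℝ)) * Y / Real.log Y =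
        1 / 2 * ((Y : ℝ) / 4 / ((Nat.totient P.M : ℝ) * Real.log Y)) := by
        field_simp; ring
    _ ≤ _ := by linarith

end Pool.Agent.H68.G.CHE
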