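import Pool.Agent.H68.G.Stm
import Pool.Agent.H68.L.R_seed8.Y495.CX.FEW

/-!
# Few sets have few large split primes or no large silent prime (after helper362 and helper413)
-/

set_option autoImplicit false

open scoped Classical

namespace Pool.Agent.H68.G.FEW

open Finset Filter
open Pool.Agent.Y703.CX (sm la eL zz S_SIE)
open Pool.Agent.H68.G
open Pool.Agent.Y703.CQ (nr sg prs HB S_EQ ext GdA S_SYM S_C2 S_LA c2)
open Pool.Agent.Y495.CX.Few (PN euler prod_pos' le_of_mem_prod mert eL_tendsto log_small zz_ge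
  loglog_zz rpow_eq)

lemma pr {P : Par} {p : ℕ} (h : Sp P p ∨ In P p) : p.Prime := pr1 h

lemma SS_mem {P : Par} {X : ℕ} {S : Finset ℕ} (h : S ∈ SS P X) :
    (∀ p ∈ S, Sp P p ∨ In P p) ∧ ∏ p ∈ S, p ≤ X := by
  unfold SS at h
  rw [mem_filter] at h
  exact ⟨h.2.1.1, h.2.2⟩

/-- the number of sets which contain a given one -/
lemma card_sup (X : ℕ) (F : Finset (Finset ℕ))
    (hF : ∀ S ∈ F, (∀ p ∈ S, p.Prime) ∧ ∏ p ∈ S, p ≤ X) (S₀ : Finset ℕ)
    (h0 : ∀ p ∈ S₀, p.Prime) :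
    ((F.filter fun S => S₀ ⊆ S).card : ℝ) ≤ X * ∏ p ∈ S₀, (1 : ℝ) / p := by
  have hpos := prod_pos' h0
  have key : (F.filter fun S => S₀ ⊆ S).card ≤ X / ∏ p ∈ S₀, p := by
    have h1 : (Icc 1 (X / ∏ p ∈ S₀, p)).card = X / ∏ p ∈ S₀, p := by simp
    rw [← h1]
    refine card_le_card_of_injOn (fun S => ∏ p ∈ S \ S₀, p) ?_ ?_
    · intro S hS
      rw [mem_coe, mem_filter] at hS
      obtain ⟨a1, a3⟩ := hF S hS.1
      have h2 : (∏ p ∈ S \ S₀, p) * ∏ p ∈ S₀, p = ∏ p ∈ S, p :=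
        prod_sdiff hS.2
      rw [mem_coe, mem_Icc]
      refine ⟨prod_pos' fun p hp => a1 p (mem_sdiff.1 hp).1, ?_⟩
      rw [Nat.le_div_iff_mul_le hpos, h2]
      exact a3
    · intro S hS T hT hST
      rw [mem_coe, mem_filter] at hS hT
      obtain ⟨a1, a3⟩ := hF S hS.1
      obtain ⟨b1, b3⟩ := hF T hT.1
      have h2 : S \ S₀ = T \ S₀ := by
        have h3 := Nat.primeFactors_prod (s := S \ S₀) fun p hp => a1 p (mem_sdiff.1 hp).1
        have h4 := Nat.primeFactors_prod (s := T \ S₀) fun p hp => b1 p (mem_sdiff.1 hp).1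
        rw [← h3, ← h4]
        exact congrArg Nat.primeFactors hST
      rw [← sdiff_union_of_subset hS.2, h2, sdiff_union_of_subset hT.2]
  have h2 : ((X / ∏ p ∈ S₀, p : ℕ) : ℝ) ≤ (X : ℝ) / ((∏ p ∈ S₀, p : ℕ) : ℝ) := Nat.cast_div_le
  have h3 : (X : ℝ) * ∏ p ∈ S₀, (1 : ℝ) / p = (X : ℝ) / ((∏ p ∈ S₀, p : ℕ) : ℝ) := by
    rw [prod_div_distrib, prod_const_one]
    push_cast
    ring
  rw [h3]
  exact (by exact_mod_cast key : ((F.filter fun S => S₀ ⊆ S).card : ℝ) ≤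
    ((X / ∏ p ∈ S₀, p : ℕ) : ℝ)).trans h2

/-- the moments of the number of small primes -/
lemma moment (X z : ℕ) (F : Finset (Finset ℕ))
    (hF : ∀ S ∈ F, (∀ p ∈ S, p.Prime) ∧ ∏ p ∈ S, p ≤ X) (κ : ℝ) (hκ : 0 ≤ κ) :
    ∑ S ∈ F, κ ^ (sm z S).card ≤ X * Real.exp (κ * ∑ p ∈ PN z, (1 : ℝ) / p) := by
  have hmaps : ∀ S ∈ F, sm z S ∈ (PN z).powerset := by
    intro S hS
    rw [mem_powerset]
    intro p hp
    unfold sm at hp
    rw [mem_filter] at hp
    have h1 := (hF S hS).1 p hp.1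
    rw [mem_filter, mem_Icc]
    exact ⟨⟨h1.one_lt.le, hp.2⟩, h1⟩
  rw [← sum_fiberwise_of_maps_to hmaps]
  have h1 : ∀ S₀ ∈ (PN z).powerset, ∑ S ∈ F.filter (fun S => sm z S = S₀),
      κ ^ (sm z S).card ≤ X * ∏ p ∈ S₀, κ * (1 / (p : ℝ)) := by
    intro S₀ hS₀
    rw [mem_powerset] at hS₀
    have h2 : ∑ S ∈ F.filter (fun S => sm z S = S₀), κ ^ (sm z S).card =
        ((F.filter fun S => sm z S = S₀).card : ℝ) * κ ^ S₀.card := by
      rw [← nsmul_eq_mul, ← sum_const]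
      refine sum_congr rfl fun S hS => ?_
      rw [(mem_filter.1 hS).2]
    have h3 : ((F.filter fun S => sm z S = S₀).card : ℝ) ≤
        ((F.filter fun S => S₀ ⊆ S).card : ℝ) := by
      have : (F.filter fun S => sm z S = S₀).card ≤ (F.filter fun S => S₀ ⊆ S).card := by
        refine card_le_card fun S hS => ?_
        rw [mem_filter] at hS ⊢
        refine ⟨hS.1, ?_⟩
        rw [← hS.2]
        exact filter_subset _ _
      exact_mod_cast this
    have h4 := card_sup X F hF S₀ fun p hp => (mem_filter.1 (hS₀ hp)).2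
    rw [h2, prod_mul_distrib, prod_const]
    have h5 : (0 : ℝ) ≤ κ ^ S₀.card := by positivity
    calc _ ≤ (X * ∏ p ∈ S₀, (1 : ℝ) / p) * κ ^ S₀.card :=
          mul_le_mul_of_nonneg_right (h3.trans h4) h5
      _ = _ := by ring
  refine (sum_le_sum h1).trans ?_
  rw [← mul_sum]
  apply mul_le_mul_of_nonneg_left _ (Nat.cast_nonneg _)
  refine (euler (PN z) (fun p => κ * (1 / (p : ℝ))) fun p _ => by positivity).trans ?_
  rw [← mul_sum]

/-- sets with many small primes -/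
lemma part1 (P : Par) (η ε : ℝ) (hη : 0 < η) (hε : 0 < ε) : ∃ C : ℝ, 0 ≤ C ∧ ∀ᶠ X : ℕ in atTop,
    (((SS P X).filter fun S => η * eL X < ((sm (zz X) S).card : ℝ)).card : ℝ) ≤
      C * X * Real.exp ((-1 + ε) * eL X) := by
  obtain ⟨C, hC0, hC⟩ := mert
  set κ : ℝ := Real.exp (1 / η) with hκ
  have κ0 : 0 < κ := Real.exp_pos _
  refine ⟨Real.exp (κ * C), (Real.exp_pos _).le, ?_⟩
  filter_upwards [eL_tendsto.eventually (log_small (3 * κ) ε hε),
    eL_tendsto.eventually (eventually_ge_atTop 2)] with X h1 h2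
  have h3 := moment X (zz X) (SS P X)
    (fun S hS => ⟨fun p hp => pr ((SS_mem hS).1 p hp), (SS_mem hS).2⟩) κ κ0.le
  have h4 := hC (zz X) (zz_ge h2)
  have h5 := loglog_zz h2
  have h6 : (((SS P X).filter fun S => η * eL X < ((sm (zz X) S).card : ℝ)).card : ℝ) *
      Real.exp (eL X) ≤ ∑ S ∈ SS P X, κ ^ (sm (zz X) S).card := by
    rw [← nsmul_eq_mul, ← sum_const]
    refine le_trans ?_ (sum_le_sum_of_subset_of_nonneg
      (filter_subset (fun S => η * eL X < ((sm (zz X) S).card : ℝ)) (SS P X))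
      fun S _ _ => by positivity)
    refine sum_le_sum fun S hS => ?_
    rw [mem_filter] at hS
    rw [hκ, ← Real.exp_nat_mul]
    apply Real.exp_le_exp.2
    have h7 := hS.2
    rw [mul_one_div, le_div_iff₀ hη]
    linarith
  have h7 := h6.trans h3
  have h8 : κ * ∑ p ∈ PN (zz X), (1 : ℝ) / p ≤ κ * C + ε * eL X := by
    have : κ * ∑ p ∈ PN (zz X), (1 : ℝ) / p ≤ κ * (3 * Real.log (eL X) + C) :=
      mul_le_mul_of_nonneg_left (by linarith) κ0.le
    nlinarith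
  have h9 : (X : ℝ) * Real.exp (κ * ∑ p ∈ PN (zz X), (1 : ℝ) / p) ≤
      X * (Real.exp (κ * C) * Real.exp (ε * eL X)) := by
    rw [← Real.exp_add]
    exact mul_le_mul_of_nonneg_left (Real.exp_le_exp.2 h8) (Nat.cast_nonneg _)
  have h10 := h7.trans h9
  have h11 : (Real.exp (κ * C) * X * Real.exp ((-1 + ε) * eL X)) * Real.exp (eL X) =
      X * (Real.exp (κ * C) * Real.exp (ε * eL X)) := by
    have : Real.exp (ε * eL X) = Real.exp ((-1 + ε) * eL X) * Real.exp (eL X) := by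
      rw [← Real.exp_add]
      congr 1
      ring
    rw [this]
    ring
  rw [← h11] at h10
  exact le_of_mul_le_mul_right h10 (Real.exp_pos _)

/-- Mertens' theorem for several classes -/
lemma mer_set (hm : S_MER) {P : Par} (hO : Ok P) (A : Finset ℕ)
    (hA : ∀ a ∈ A, a < P.M ∧ Nat.Coprime a P.M) :
    ∃ C : ℝ, 0 ≤ C ∧ ∀ y : ℕ, 3 ≤ y →
      ∑ p ∈ (PN y).filter (fun p => p % P.M ∈ A), (1 : ℝ) / p ≤
        (A.card : ℝ) / (Nat.totient P.M : ℝ) * Real.log (Real.log y) + C := by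
  have h1 : ∀ a : ℕ, ∃ C : ℝ, a < P.M ∧ Nat.Coprime a P.M → ∀ y : ℕ, 3 ≤ y →
      |∑ p ∈ (range (y + 1)).filter (fun p => p.Prime ∧ p % P.M = a), (1 : ℝ) / p -
        1 / (Nat.totient P.M : ℝ) * Real.log (Real.log y)| ≤ C := by
    intro a
    by_cases h : a < P.M ∧ Nat.Coprime a P.M
    · obtain ⟨C, hC⟩ := hm P hO a h.1 h.2
      exact ⟨C, fun _ => hC⟩
    · exact ⟨0, fun h' => absurd h' h⟩
  choose c hc using h1
  refine ⟨∑ a ∈ A, |c a|, sum_nonneg fun a _ => abs_nonneg _, fun y hy => ?_⟩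
  have h2 : ∀ p ∈ (PN y).filter (fun p => p % P.M ∈ A), p % P.M ∈ A := fun p hp =>
    (mem_filter.1 hp).2
  rw [← sum_fiberwise_of_maps_to h2]
  have h3 : ∀ a ∈ A, ∑ p ∈ ((PN y).filter (fun p => p % P.M ∈ A)).filter
      (fun p => p % P.M = a), (1 : ℝ) / p ≤
        1 / (Nat.totient P.M : ℝ) * Real.log (Real.log y) + |c a| := by
    intro a ha
    have h4 := (abs_le.1 (hc a (hA a ha) y hy)).2
    have h5 : ∑ p ∈ ((PN y).filter (fun p => p % P.M ∈ A)).filter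
        (fun p => p % P.M = a), (1 : ℝ) / p ≤
        ∑ p ∈ (range (y + 1)).filter (fun p => p.Prime ∧ p % P.M = a), (1 : ℝ) / p := by
      refine sum_le_sum_of_subset_of_nonneg ?_ fun p _ _ => by positivity
      intro p hp
      rw [mem_filter, mem_filter, mem_filter, mem_Icc] at hp
      rw [mem_filter, mem_range]
      exact ⟨by omega, hp.1.1.2, hp.2⟩
    have h6 := le_abs_self (c a)
    linarith
  refine (sum_le_sum h3).trans (le_of_eq ?_)
  rw [sum_add_distrib, sum_const, nsmul_eq_mul]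
  ring

/-- the reciprocals of the split primes -/
lemma mer_S (hm : S_MER) {P : Par} (hO : Ok P) : ∃ C : ℝ, 0 ≤ C ∧ ∀ y : ℕ, 3 ≤ y →
    ∑ p ∈ (PN y).filter (Sp P), (1 : ℝ) / p ≤ dA P * Real.log (Real.log y) + C := by
  obtain ⟨C, hC0, hC⟩ := mer_set hm hO P.A fun a ha => ⟨(hO.hA a ha).1, (hO.hA a ha).2.1⟩
  refine ⟨C, hC0, fun y hy => ?_⟩
  refine le_trans ?_ (hC y hy)
  refine sum_le_sum_of_subset_of_nonneg ?_ fun p _ _ => by positivity
  intro p hp
  rw [mem_filter] at hp ⊢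
  exact ⟨hp.1, lab_iff.1 hp.2.2.1⟩

/-- the reciprocals of the silent primes -/
lemma mer_I (hm : S_MER) {P : Par} (hO : Ok P) : ∃ C : ℝ, 0 ≤ C ∧ ∀ y : ℕ, 3 ≤ y →
    ∑ p ∈ (PN y).filter (In P), (1 : ℝ) / p ≤
      dB P * Real.log (Real.log y) + C := by
  obtain ⟨C, hC0, hC⟩ := mer_set hm hO P.B fun a ha => hO.hB a ha
  refine ⟨C, hC0, fun y hy => ?_⟩
  refine le_trans ?_ (hC y hy)
  refine sum_le_sum_of_subset_of_nonneg ?_ fun p _ _ => by positivity
  intro p hp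
  rw [mem_filter] at hp ⊢
  exact ⟨hp.1, hp.2.2.2⟩

/-- a family of sets of primes of the class with a condition on the large primes -/
noncomputable def LL (P : Par) (X : ℕ) (Q : Finset ℕ → Prop) : Finset (Finset ℕ) :=
  (range (X + 1)).powerset.filter fun S => (∀ p ∈ S, Sp P p ∨ In P p) ∧ ∏ p ∈ S, p ≤ X ∧ Q S

lemma mem_LL {P : Par} {X : ℕ} {Q : Finset ℕ → Prop} {S : Finset ℕ} :
    S ∈ LL P X Q ↔ S ⊆ range (X + 1) ∧
      (∀ p ∈ S, Sp P p ∨ In P p) ∧ ∏ p ∈ S, p ≤ X ∧ Q S := by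
  unfold LL
  rw [mem_filter, mem_powerset]

lemma LL_sub {P : Par} {X : ℕ} {Q : Finset ℕ → Prop} (hQ : ∀ S, Q S → ∀ T, T ⊆ S → Q T)
    {S T : Finset ℕ} (hS : S ∈ LL P X Q) (h : T ⊆ S) : T ∈ LL P X Q := by
  rw [mem_LL] at hS ⊢
  obtain ⟨a0, a1, a2, a3⟩ := hS
  refine ⟨h.trans a0, fun p hp => a1 p (h hp), ?_, hQ S a3 T h⟩
  refine le_trans ?_ a2
  exact prod_le_prod_of_subset_of_one_le' h fun p hp _ => (pr (a1 p hp)).one_lt.le

lemma mem_LL_of {P : Par} {X : ℕ} {Q : Finset ℕ → Prop} {S : Finset ℕ}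
    (hS : S ∈ SS P X) (hQ : Q S) : S ∈ LL P X Q := by
  obtain ⟨a1, a3⟩ := SS_mem hS
  rw [mem_LL]
  refine ⟨?_, a1, a3, hQ⟩
  intro p hp
  rw [mem_range]
  have := le_of_mem_prod (fun p hp => pr (a1 p hp)) a3 hp
  omega

/-- the logarithmic density of a family -/
lemma LL_sum (P : Par) (X z : ℕ) (Q : Finset ℕ → Prop) (w : ℕ → ℝ) (M s t : ℝ)
    (hw : ∀ p, 0 ≤ w p) (hM : 0 ≤ M) (hs : 0 ≤ s) (ht : 0 ≤ t)
    (h1w : ∀ S ∈ LL P X Q, 1 ≤ M * ∏ p ∈ S, w p)
    (hz : ∀ p, p ≤ z → w p ≤ 1) (hS : ∀ p, Sp P p → z < p → w p ≤ s)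
    (hI : ∀ p, In P p → z < p → w p ≤ t) :
    ∑ S ∈ LL P X Q, (1 : ℝ) / ((∏ p ∈ S, p : ℕ) : ℝ) ≤ M *
      Real.exp (∑ p ∈ PN z, (1 : ℝ) / p + s * ∑ p ∈ (PN X).filter (Sp P), (1 : ℝ) / p +
        t * ∑ p ∈ (PN X).filter (In P), (1 : ℝ) / p) := by
  have h1 : ∀ S ∈ LL P X Q, (1 : ℝ) / ((∏ p ∈ S, p : ℕ) : ℝ) ≤
      M * ∏ p ∈ S, (w p * (1 / p)) := by
    intro S hS
    have h2 := h1w S hS
    have h3 : (0 : ℝ) ≤ ∏ p ∈ S, (1 : ℝ) / p := prod_nonneg fun p _ => by positivity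
    have h4 : (1 : ℝ) / ((∏ p ∈ S, p : ℕ) : ℝ) = ∏ p ∈ S, (1 : ℝ) / p := by
      rw [prod_div_distrib, prod_const_one]
      push_cast
      rfl
    rw [h4, prod_mul_distrib]
    calc ∏ p ∈ S, (1 : ℝ) / p = 1 * ∏ p ∈ S, (1 : ℝ) / p := (one_mul _).symm
      _ ≤ (M * ∏ p ∈ S, w p) * ∏ p ∈ S, (1 : ℝ) / p :=
          mul_le_mul_of_nonneg_right h2 h3
      _ = _ := by ring
  refine (sum_le_sum h1).trans ?_
  rw [← mul_sum]
  apply mul_le_mul_of_nonneg_left _ hM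
  have hnn : ∀ p : ℕ, 0 ≤ w p * (1 / (p : ℝ)) := fun p => mul_nonneg (hw p) (by positivity)
  have h5 : ∑ S ∈ LL P X Q, ∏ p ∈ S, (w p * (1 / (p : ℝ))) ≤
      ∑ S ∈ ((PN X).filter fun p => Sp P p ∨ In P p).powerset, ∏ p ∈ S, (w p * (1 / (p : ℝ))) := by
    refine sum_le_sum_of_subset_of_nonneg ?_ fun S _ _ => prod_nonneg fun p _ => hnn p
    intro S hS
    rw [mem_LL] at hS
    rw [mem_powerset]
    intro p hp
    have h6 := pr (hS.2.1 p hp)
    rw [mem_filter, mem_filter, mem_Icc]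
    exact ⟨⟨⟨h6.one_lt.le, le_of_mem_prod (fun p hp => pr (hS.2.1 p hp)) hS.2.2.1 hp⟩, h6⟩,
      hS.2.1 p hp⟩
  refine h5.trans ((euler _ _ fun p _ => hnn p).trans ?_)
  apply Real.exp_le_exp.2
  have h6 : ∀ p ∈ (PN X).filter fun p => Sp P p ∨ In P p, w p * (1 / (p : ℝ)) ≤
      (if p ≤ z then (1 : ℝ) / p else 0) + ((if Sp P p then s * (1 / (p : ℝ)) else 0) +
        (if In P p then t * (1 / (p : ℝ)) else 0)) := by
    intro p hp
    have hp0 : (0 : ℝ) ≤ 1 / p := by positivity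
    have e1 : (0 : ℝ) ≤ if Sp P p then s * (1 / (p : ℝ)) else 0 := by
      split_ifs
      · positivity
      · exact le_refl _
    have e2 : (0 : ℝ) ≤ if In P p then t * (1 / (p : ℝ)) else 0 := by
      split_ifs
      · positivity
      · exact le_refl _
    by_cases hpz : p ≤ z
    · rw [if_pos hpz]
      have := mul_le_mul_of_nonneg_right (hz p hpz) hp0
      linarith
    · rw [if_neg hpz]
      rcases (mem_filter.1 hp).2 with h | h
      · rw [if_pos h]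
        have := mul_le_mul_of_nonneg_right (hS p h (not_le.1 hpz)) hp0
        linarith
      · rw [if_pos h]
        have := mul_le_mul_of_nonneg_right (hI p h (not_le.1 hpz)) hp0
        linarith
  refine (sum_le_sum h6).trans ?_
  have h7 : ∑ p ∈ (PN X).filter (fun p => Sp P p ∨ In P p),
      ((if p ≤ z then (1 : ℝ) / p else 0) + ((if Sp P p then s * (1 / (p : ℝ)) else 0) +
        (if In P p then t * (1 / (p : ℝ)) else 0))) ≤
      ∑ p ∈ PN X, ((if p ≤ z then (1 : ℝ) / p else 0) +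
        ((if Sp P p then s * (1 / (p : ℝ)) else 0) +
        (if In P p then t * (1 / (p : ℝ)) else 0))) := by
    refine sum_le_sum_of_subset_of_nonneg (filter_subset _ _) fun p _ _ => ?_
    have hp0 : (0 : ℝ) ≤ 1 / p := by positivity
    have e0 : (0 : ℝ) ≤ if p ≤ z then (1 : ℝ) / p else 0 := by
      split_ifs
      · exact hp0
      · exact le_refl _
    have e1 : (0 : ℝ) ≤ if Sp P p then s * (1 / (p : ℝ)) else 0 := by
      split_ifs
      · positivity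
      · exact le_refl _
    have e2 : (0 : ℝ) ≤ if In P p then t * (1 / (p : ℝ)) else 0 := by
      split_ifs
      · positivity
      · exact le_refl _
    linarith
  refine h7.trans ?_
  rw [sum_add_distrib, sum_add_distrib, ← sum_filter, ← sum_filter, ← sum_filter, ← mul_sum,
    ← mul_sum, ← add_assoc]
  gcongr
  intro p hp
  rw [mem_filter, mem_filter, mem_Icc] at hp
  rw [mem_filter, mem_Icc]
  exact ⟨⟨hp.1.1.1, hp.2⟩, hp.1.2⟩

/-- the number of the elements of a family closed under subsets -/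
lemma part2 (hs : S_SIE) (hm : S_MER) {P : Par} (hI : Ok P) (s t e : ℝ) (hs0 : 0 ≤ s)
    (ht0 : 0 ≤ t) (Q : ℕ → Finset ℕ → Prop) (hQ : ∀ X S, Q X S → ∀ T, T ⊆ S → Q X T)
    (w : ℕ → ℕ → ℝ) (hw : ∀ X p, 0 ≤ w X p) (hz : ∀ X p, p ≤ zz X → w X p ≤ 1)
    (hS : ∀ X p, Sp P p → zz X < p → w X p ≤ s) (hN : ∀ X p, In P p → zz X < p → w X p ≤ t)
    (h1w : ∀ X, 2 ≤ eL X → ∀ S ∈ LL P X (Q X), 1 ≤ Real.exp (e * eL X) * ∏ p ∈ S, w X p)
    {r : ℝ} (hr : -1 + e + s * dA P + t * dB P < r) :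
    ∃ C : ℝ, 0 ≤ C ∧ ∀ᶠ X : ℕ in atTop,
    ((LL P X (Q X)).card : ℝ) ≤ C * X * Real.exp (r * eL X) := by
  obtain ⟨C, hC0, hC⟩ := mert
  obtain ⟨C₁, hC₁0, hC₁⟩ := mer_S hm hI
  obtain ⟨C₂, hC₂0, hC₂⟩ := mer_I hm hI
  obtain ⟨C', hC'1, hC'⟩ := hs
  refine ⟨C' * Real.exp (C + s * C₁ + t * C₂), by positivity, ?_⟩
  have hε : 0 < r - (-1 + e + s * dA P + t * dB P) := by linarith
  filter_upwards [eL_tendsto.eventually (log_small 3 _ hε),
    eL_tendsto.eventually (eventually_ge_atTop 2), eventually_ge_atTop 3] with X h1 h2 h3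
  set l := eL X with hl
  have h4 := hC (zz X) (zz_ge h2)
  have h5 := loglog_zz h2
  have h6 := hC₁ X h3
  have h6' := hC₂ X h3
  rw [← hl] at h5
  change _ ≤ dA P * l + C₁ at h6
  change _ ≤ dB P * l + C₂ at h6'
  have h7 := hC' X (LL P X (Q X)) (by omega)
    (fun S hS => ⟨fun p hp => pr ((mem_LL.1 hS).2.1 p hp), (mem_LL.1 hS).2.2.1⟩)
    (fun S hS T hT => LL_sub (hQ X) hS hT)
  have h8 := LL_sum P X (zz X) (Q X) (w X) (Real.exp (e * l)) s t (hw X) (Real.exp_pos _).le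
    hs0 ht0 (h1w X h2) (hz X) (hS X) (hN X)
  have hlX : Real.log X = Real.exp l := by
    have := rpow_eq (X := X) h2 1
    rwa [Real.rpow_one, one_mul] at this
  rw [hlX] at h7
  have h9 : s * ∑ p ∈ (PN X).filter (Sp P), (1 : ℝ) / p ≤ s * (dA P * l + C₁) :=
    mul_le_mul_of_nonneg_left h6 hs0
  have h10 : t * ∑ p ∈ (PN X).filter (In P), (1 : ℝ) / p ≤ t * (dB P * l + C₂) :=
    mul_le_mul_of_nonneg_left h6' ht0
  have h12 : Real.exp (e * l) * Real.exp (∑ p ∈ PN (zz X), (1 : ℝ) / p +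
      s * ∑ p ∈ (PN X).filter (Sp P), (1 : ℝ) / p +
        t * ∑ p ∈ (PN X).filter (In P), (1 : ℝ) / p) ≤
      Real.exp (C + s * C₁ + t * C₂) * Real.exp ((r + 1) * l) := by
    rw [← Real.exp_add, ← Real.exp_add]
    apply Real.exp_le_exp.2
    have e1 : ∑ p ∈ PN (zz X), (1 : ℝ) / p ≤ 3 * Real.log l + C := by linarith
    calc e * l + (∑ p ∈ PN (zz X), (1 : ℝ) / p + s * ∑ p ∈ (PN X).filter (Sp P), (1 : ℝ) / p +
        t * ∑ p ∈ (PN X).filter (In P), (1 : ℝ) / p)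
        ≤ e * l + ((r - (-1 + e + s * dA P + t * dB P)) * l + C +
          s * (dA P * l + C₁) + t * (dB P * l + C₂)) := by linarith
      _ = C + s * C₁ + t * C₂ + (r + 1) * l := by ring
  have h13 : ((LL P X (Q X)).card : ℝ) * Real.exp l ≤
      C' * X * (Real.exp (C + s * C₁ + t * C₂) * Real.exp ((r + 1) * l)) := by
    refine h7.trans ?_
    exact mul_le_mul_of_nonneg_left (h8.trans h12) (by positivity)
  have h14 : (C' * Real.exp (C + s * C₁ + t * C₂) * X * Real.exp (r * l)) * Real.exp l =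
      C' * X * (Real.exp (C + s * C₁ + t * C₂) * Real.exp ((r + 1) * l)) := by
    have : Real.exp ((r + 1) * l) = Real.exp (r * l) * Real.exp l := by
      rw [← Real.exp_add]
      congr 1
      ring
    rw [this]
    ring
  rw [← h14] at h13
  exact le_of_mul_le_mul_right h13 (Real.exp_pos _)

/-- sets whose large primes are split -/
lemma part3 (hs : S_SIE) (hm : S_MER) {P : Par} (hI : Ok P) {r : ℝ}
    (hr : -1 + dA P < r) : ∃ C : ℝ, 0 ≤ C ∧ ∀ᶠ X : ℕ in atTop,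
    ((LL P X fun S => ∀ p ∈ la (zz X) S, lab P p = 1).card : ℝ) ≤
      C * X * Real.exp (r * eL X) := by
  refine part2 hs hm hI 1 0 0 zero_le_one le_rfl (fun X S => ∀ p ∈ la (zz X) S, lab P p = 1) ?_
    (fun X p => if ¬ p ≤ zz X ∧ lab P p ≠ 1 then 0 else 1) ?_ ?_ ?_ ?_ ?_ ?_
  · intro X S h T hT p hp
    refine h p ?_
    unfold la at hp ⊢
    rw [mem_filter] at hp ⊢
    exact ⟨hT hp.1, hp.2⟩
  · intro X p
    split_ifs <;> norm_num
  · intro X p _
    split_ifs <;> norm_num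
  · intro X p _ _
    split_ifs <;> norm_num
  · intro X p h h'
    have h8 : lab P p ≠ 1 := h.2.1
    rw [if_pos ⟨not_le.2 h', h8⟩]
  · intro X _ S hS
    rw [mem_LL] at hS
    rw [zero_mul, Real.exp_zero, one_mul]
    refine le_of_eq (Eq.symm (prod_eq_one fun p hp => ?_))
    rw [if_neg]
    rintro ⟨h1, h2⟩
    exact h2 (hS.2.2.2 p (mem_filter.2 ⟨hp, h1⟩))
  · linarith

/-- sets with few large split primes -/
lemma part4 (hs : S_SIE) (hm : S_MER) {P : Par} (hI : Ok P) {r : ℝ}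
    (hr : -1 + dB P + dA P / 2 ≤ r) : ∃ C : ℝ, 0 ≤ C ∧ ∀ᶠ X : ℕ in atTop,
    ((LL P X fun S => ((la (zz X) S).filter fun p => lab P p = 1).card ≤ ⌊dA P / 8 * eL X⌋₊).card : ℝ) ≤
      C * X * Real.exp (r * eL X) := by
  have hA0 := hI.dA_pos
  have hl4 : Real.log 4 * (dA P / 8) + 1 / 4 * dA P < dA P / 2 := by
    have h1 : (4 : ℝ) = 2 ^ 2 := by norm_num
    rw [h1, Real.log_pow]
    have := Real.log_two_lt_d9
    push_cast
    nlinarith
  refine part2 hs hm hI (1 / 4) 1 (Real.log 4 * (dA P / 8)) (by norm_num) zero_le_one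
    (fun X S => ((la (zz X) S).filter fun p => lab P p = 1).card ≤ ⌊dA P / 8 * eL X⌋₊) ?_
    (fun X p => if ¬ p ≤ zz X ∧ lab P p = 1 then 1 / 4 else 1) ?_ ?_ ?_ ?_ ?_ ?_
  · intro X S h T hT
    refine (card_le_card (filter_subset_filter _ ?_)).trans h
    unfold la
    exact filter_subset_filter _ hT
  · intro X p
    split_ifs <;> norm_num
  · intro X p _
    split_ifs <;> norm_num
  · intro X p h h'
    rw [if_pos ⟨not_le.2 h', h.2.1⟩]
  · intro X p _ _
    split_ifs <;> norm_num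
  · intro X hX S hS
    rw [mem_LL] at hS
    rw [← prod_filter, prod_const]
    have h1 : (S.filter fun p => ¬ p ≤ zz X ∧ lab P p = 1).card ≤ ⌊dA P / 8 * eL X⌋₊ := by
      refine (card_le_card ?_).trans hS.2.2.2
      intro p hp
      rw [mem_filter] at hp
      unfold la
      rw [mem_filter, mem_filter]
      exact ⟨⟨hp.1, hp.2.1⟩, hp.2.2⟩
    have h2 : (1 / 4 : ℝ) ^ ⌊dA P / 8 * eL X⌋₊ ≤
        (1 / 4 : ℝ) ^ (S.filter fun p => ¬ p ≤ zz X ∧ lab P p = 1).card :=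
      pow_le_pow_of_le_one (by norm_num) (by norm_num) h1
    have h3 : Real.exp (-(Real.log 4 * (dA P / 8) * eL X)) ≤ (1 / 4 : ℝ) ^ ⌊dA P / 8 * eL X⌋₊ := by
      have e1 : (1 / 4 : ℝ) = Real.exp (-Real.log 4) := by
        rw [Real.exp_neg, Real.exp_log (by norm_num)]
        norm_num
      rw [e1, ← Real.exp_nat_mul]
      apply Real.exp_le_exp.2
      have e2 : ((⌊dA P / 8 * eL X⌋₊ : ℕ) : ℝ) ≤ dA P / 8 * eL X := Nat.floor_le (by positivity)
      have e4 : 0 ≤ Real.log 4 := Real.log_nonneg (by norm_num)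
      have e5 := mul_le_mul_of_nonneg_right e2 e4
      linarith
    calc (1 : ℝ) = Real.exp (Real.log 4 * (dA P / 8) * eL X) *
          Real.exp (-(Real.log 4 * (dA P / 8) * eL X)) := by
          rw [← Real.exp_add, add_neg_cancel, Real.exp_zero]
      _ ≤ _ := mul_le_mul_of_nonneg_left (h3.trans h2) (Real.exp_pos _).le
  · linarith

theorem t_FEW : S_FEW := by
  intro hs hm P V hI
  set r : ℝ := -1 + dl P - sk P with hr
  have hA0 := hI.dA_pos
  have hB0 := hI.dB_pos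
  have hkA := sk_le_A P
  have hkB := sk_le_B P
  have hr' : r = -1 + dA P + dB P - sk P := by rw [hr, dl]; ring
  obtain ⟨C₁, hC₁, h1⟩ := part1 P (dA P / 32) (dA P) (by positivity) hA0
  obtain ⟨C₂, hC₂, h2⟩ := part3 hs hm hI (r := r) (by linarith)
  obtain ⟨C₃, hC₃, h3⟩ := part4 hs hm hI (r := r) (by linarith)
  have h4 := ((h1.and h2).and h3).and
    (eL_tendsto.eventually (eventually_ge_atTop (max 2 ((V : ℝ) / (dA P / 16)))))
  rw [eventually_atTop] at h4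
  obtain ⟨X₀, hX₀⟩ := h4
  refine ⟨C₁ + C₂ + C₃, X₀, fun X hX => ?_⟩
  obtain ⟨⟨⟨h5, h6⟩, h7⟩, h8⟩ := hX₀ X hX
  have h9 : 2 ≤ eL X := (le_max_left _ _).trans h8
  have h10 : (V : ℝ) ≤ dA P / 16 * eL X := by
    have h := (le_max_right _ _).trans h8
    rw [div_le_iff₀ (by positivity)] at h
    linarith
  rw [rpow_eq h9]
  have h11 : ((SS P X).filter fun S => ((la (zz X) S).filter fun p => lab P p = 1).card ≤
      2 * (sm (zz X) S).card + V ∨ ∀ p ∈ la (zz X) S, lab P p = 1) ⊆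
      ((SS P X).filter fun S => dA P / 32 * eL X < ((sm (zz X) S).card : ℝ)) ∪
        (LL P X (fun S => ∀ p ∈ la (zz X) S, lab P p = 1) ∪
        LL P X fun S => ((la (zz X) S).filter fun p => lab P p = 1).card ≤
          ⌊dA P / 8 * eL X⌋₊) := by
    intro S hS
    rw [mem_filter] at hS
    rw [mem_union, mem_union, mem_filter]
    rcases hS.2 with h | h
    · by_cases hc : dA P / 32 * eL X < ((sm (zz X) S).card : ℝ)
      · exact Or.inl ⟨hS.1, hc⟩
      · right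
        right
        rw [not_lt] at hc
        refine mem_LL_of hS.1 ?_
        apply Nat.le_floor
        have h12 : ((((la (zz X) S).filter fun p => lab P p = 1).card : ℕ) : ℝ) ≤
            2 * ((sm (zz X) S).card : ℝ) + V := by exact_mod_cast h
        linarith
    · exact Or.inr (Or.inl (mem_LL_of hS.1 h))
  have h12 : (((SS P X).filter fun S => ((la (zz X) S).filter fun p => lab P p = 1).card ≤
      2 * (sm (zz X) S).card + V ∨ ∀ p ∈ la (zz X) S, lab P p = 1).card : ℝ) ≤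
      (((SS P X).filter fun S => dA P / 32 * eL X < ((sm (zz X) S).card : ℝ)).card : ℝ) +
      (((LL P X fun S => ∀ p ∈ la (zz X) S, lab P p = 1).card : ℝ) +
      ((LL P X fun S => ((la (zz X) S).filter fun p => lab P p = 1).card ≤
        ⌊dA P / 8 * eL X⌋₊).card : ℝ)) := by
    exact_mod_cast (card_le_card h11).trans ((card_union_le _ _).trans
      (Nat.add_le_add_left (card_union_le _ _) _))
  have h13 : C₁ * X * Real.exp ((-1 + dA P) * eL X) ≤ C₁ * X * Real.exp (r * eL X) := by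
    apply mul_le_mul_of_nonneg_left _ (by positivity)
    apply Real.exp_le_exp.2
    apply mul_le_mul_of_nonneg_right _ (by linarith)
    linarith
  refine h12.trans ((add_le_add (h5.trans h13) (add_le_add h6 h7)).trans (le_of_eq ?_))
  ring

end Pool.Agent.H68.G.FEW
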