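import Pool.Agent.H68.G.Stm
import Pool.Agent.H68.L.R_seed8.Y475.CQ.HalA

/-!
# The logarithmic density for a quadratic character (after helper475's file for project CQ)
-/

set_option autoImplicit false
set_option linter.unusedVariables false

open scoped Classical

namespace Pool.Agent.H68.G.HAL

open Finset
open Pool.Agent.H68.G
open Pool.Agent.Y475.CQ (tsum_le zeta_le part_le sum_zero pow_small main_le)
open Pool.Agent.Y703.CQ (nr sg prs HB S_EQ ext GdA S_SYM S_C2 S_LA c2)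

/-- the character modulo 4 -/
noncomputable def c0 : ℕ →* ℝ where
  toFun n := ((ZMod.χ₄ (n : ZMod 4) : ℤ) : ℝ)
  map_one' := by simp
  map_mul' m n := by push_cast; rw [map_mul]; push_cast; rfl

/-- the character modulo 8 -/
noncomputable def c1 : ℕ →* ℝ where
  toFun n := ((ZMod.χ₈ (n : ZMod 8) : ℤ) : ℝ)
  map_one' := by simp
  map_mul' m n := by push_cast; rw [map_mul]; push_cast; rfl

/-- the Jacobi symbol modulo M -/
noncomputable def cJ (M : ℕ) : ℕ →* ℝ where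
  toFun n := ((jacobiSym (n : ℤ) M : ℤ) : ℝ)
  map_one' := by simp
  map_mul' m n := by push_cast; rw [jacobiSym.mul_left]; push_cast; rfl

/-- the characters -/
noncomputable def cc (M : ℕ) (i : ℕ) : ℕ →* ℝ :=
  if i = 0 then c0 else if i = 1 then c1 else if i = 2 then cJ M else cJ i

theorem cc_0 (M : ℕ) : cc M 0 = c0 := rfl
theorem cc_1 (M : ℕ) : cc M 1 = c1 := rfl
theorem cc_2 (M : ℕ) : cc M 2 = cJ M := rfl
theorem cc_3 (M i : ℕ) (hi : 3 ≤ i) : cc M i = cJ i := by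
  unfold cc
  rw [if_neg (by omega), if_neg (by omega), if_neg (by omega)]

theorem cases4 (i : ℕ) : i = 0 ∨ i = 1 ∨ i = 2 ∨ 3 ≤ i := by omega

theorem cc_val (M : ℕ) (i : ℕ) (n : ℕ) : cc M i n = 0 ∨ cc M i n = 1 ∨ cc M i n = -1 := by
  have hJ : ∀ M n : ℕ, cJ M n = 0 ∨ cJ M n = 1 ∨ cJ M n = -1 := by
    intro M n
    rcases jacobiSym.trichotomy (n : ℤ) M with h | h | h
    · left; show ((jacobiSym (n : ℤ) M : ℤ) : ℝ) = 0; rw [h]; simp
    · right; left; show ((jacobiSym (n : ℤ) M : ℤ) : ℝ) = 1; rw [h]; simp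
    · right; right; show ((jacobiSym (n : ℤ) M : ℤ) : ℝ) = -1; rw [h]; simp
  rcases cases4 i with rfl | rfl | rfl | hi
  · rw [cc_0]
    show ((ZMod.χ₄ (n : ZMod 4) : ℤ) : ℝ) = 0 ∨ _ = 1 ∨ _ = -1
    have : ∀ z : ZMod 4, ZMod.χ₄ z = 0 ∨ ZMod.χ₄ z = 1 ∨ ZMod.χ₄ z = -1 := by decide
    rcases this (n : ZMod 4) with h | h | h
    · left; rw [h]; simp
    · right; left; show ((ZMod.χ₄ (n : ZMod 4) : ℤ) : ℝ) = 1; rw [h]; simp
    · right; right; show ((ZMod.χ₄ (n : ZMod 4) : ℤ) : ℝ) = -1; rw [h]; simp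
  · rw [cc_1]
    show ((ZMod.χ₈ (n : ZMod 8) : ℤ) : ℝ) = 0 ∨ _ = 1 ∨ _ = -1
    have : ∀ z : ZMod 8, ZMod.χ₈ z = 0 ∨ ZMod.χ₈ z = 1 ∨ ZMod.χ₈ z = -1 := by decide
    rcases this (n : ZMod 8) with h | h | h
    · left; rw [h]; simp
    · right; left; show ((ZMod.χ₈ (n : ZMod 8) : ℤ) : ℝ) = 1; rw [h]; simp
    · right; right; show ((ZMod.χ₈ (n : ZMod 8) : ℤ) : ℝ) = -1; rw [h]; simp
  · rw [cc_2]; exact hJ M n
  · rw [cc_3 M i hi]; exact hJ i n

theorem c0_mod (a b : ℕ) (h : a ≡ b [MOD 4]) : c0 a = c0 b := by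
  show ((ZMod.χ₄ (a : ZMod 4) : ℤ) : ℝ) = ((ZMod.χ₄ (b : ZMod 4) : ℤ) : ℝ)
  rw [(ZMod.natCast_eq_natCast_iff a b 4).2 h]

theorem c1_mod (a b : ℕ) (h : a ≡ b [MOD 8]) : c1 a = c1 b := by
  show ((ZMod.χ₈ (a : ZMod 8) : ℤ) : ℝ) = ((ZMod.χ₈ (b : ZMod 8) : ℤ) : ℝ)
  rw [(ZMod.natCast_eq_natCast_iff a b 8).2 h]

theorem cJ_mod (M a b : ℕ) (h : a ≡ b [MOD M]) : cJ M a = cJ M b := by
  show ((jacobiSym (a : ℤ) M : ℤ) : ℝ) = ((jacobiSym (b : ℤ) M : ℤ) : ℝ)
  rw [jacobiSym.mod_left' (b := M) (by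
    have := (Int.natCast_modEq_iff).2 h
    exact this)]

/-- congruent modulo the period -/
theorem cc_mod (m : ℕ) (h8 : 8 ∣ m) (M : ℕ) (V : Finset ℕ) (hV : ∀ l ∈ V, 3 ≤ l → l ∣ m) (a b : ℕ)
    (h56 : a ≡ b [MOD m])
    (hM : 2 ∈ V → a ≡ b [MOD M]) : (∏ i ∈ V, cc M i) a = (∏ i ∈ V, cc M i) b := by
  rw [MonoidHom.finsetProd_apply, MonoidHom.finsetProd_apply]
  refine prod_congr rfl fun i hi => ?_
  rcases cases4 i with rfl | rfl | rfl | h3
  · exact c0_mod a b (h56.of_dvd ((by norm_num : 4 ∣ 8).trans h8))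
  · exact c1_mod a b (h56.of_dvd h8)
  · exact cJ_mod M a b (hM hi)
  · rw [cc_3 M i h3]
    exact cJ_mod i a b (h56.of_dvd (hV i hi h3))

theorem abs_cc (M : ℕ) (V : Finset ℕ) (n : ℕ) : |(∏ i ∈ V, cc M i) n| ≤ 1 := by
  rw [MonoidHom.finsetProd_apply, abs_prod]
  refine prod_le_one (fun _ _ => abs_nonneg _) fun i _ => ?_
  rcases cc_val M i n with h | h | h <;> rw [h] <;> norm_num

/-- the product is `-1` if one character is `-1` and the others are one -/
theorem prod_neg (M : ℕ) (V : Finset ℕ) (j : ℕ) (hj : j ∈ V) (k : ℕ)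
    (h1 : cc M j k = -1) (h2 : ∀ i ∈ V, i ≠ j → cc M i k = 1) : (∏ i ∈ V, cc M i) k = -1 := by
  rw [MonoidHom.finsetProd_apply, prod_eq_single_of_mem j hj h2, h1]

theorem leg (p : ℕ) [Fact p.Prime] (n : ℕ) : jacobiSym (n : ℤ) p = legendreSym p n :=
  (jacobiSym.legendreSym.to_jacobiSym p n).symm

/-- a number with a given residue at a prime, congruent to one elsewhere -/
theorem exR (m : ℕ) (hm : 0 < m) (l : ℕ) (hl : l.Prime) (r : ℕ) (hr : ¬ l ∣ r) :
    ∃ k : ℕ, Nat.Coprime k m ∧ k ≡ r [MOD l ^ m.factorization l] ∧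
      k ≡ 1 [MOD m / l ^ m.factorization l] := by
  have hc : Nat.Coprime (l ^ m.factorization l) (m / l ^ m.factorization l) :=
    (Nat.coprime_ordCompl hl hm.ne').pow_left _
  obtain ⟨k, hk1, hk2⟩ := Nat.chineseRemainder hc r 1
  refine ⟨k, ?_, hk1, hk2⟩
  have e : m = l ^ m.factorization l * (m / l ^ m.factorization l) :=
    (Nat.ordProj_mul_ordCompl_eq_self m l).symm
  rw [e]
  refine Nat.Coprime.mul_right ?_ ?_
  · have h1 : Nat.Coprime r (l ^ m.factorization l) := by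
      apply Nat.Coprime.pow_right
      rw [Nat.coprime_comm, Nat.Prime.coprime_iff_not_dvd hl]
      exact hr
    have h2 := hk1.gcd_eq
    unfold Nat.Coprime at h1 ⊢
    rw [h2, h1]
  · have h2 := hk2.gcd_eq
    rw [Nat.gcd_one_left] at h2
    exact h2

theorem dvd_compl (m : ℕ) (hm : 0 < m) (l l' : ℕ) (hl : l.Prime) (hl' : l'.Prime) (hne : l' ≠ l)
    (h : l' ∣ m) : l' ∣ m / l ^ m.factorization l := by
  have e : l ^ m.factorization l * (m / l ^ m.factorization l) = m :=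
    Nat.ordProj_mul_ordCompl_eq_self m l
  rw [← e] at h
  rcases (Nat.Prime.dvd_mul hl').1 h with h | h
  · exact absurd ((Nat.prime_dvd_prime_iff_eq hl' hl).1 (hl'.dvd_of_dvd_pow h)) hne
  · exact h

theorem small_V (m : ℕ) (hm : 0 < m) (h8 : 8 ∣ m) (M : ℕ) (V : Finset ℕ)
    (hVm : ∀ l ∈ V, 3 ≤ l → l.Prime ∧ l ∣ m) (hV : V.Nonempty) (h3 : 2 ∉ V) :
    ∃ k, Nat.Coprime k m ∧ (∏ i ∈ V, cc M i) k = -1 := by
  obtain ⟨j, hj⟩ := hV
  have h82 : 8 ∣ 2 ^ m.factorization 2 := by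
    have h1 : (2 : ℕ) ^ 3 ∣ m := by norm_num; exact h8
    have h2 := (Nat.prime_two.pow_dvd_iff_le_factorization hm.ne').1 h1
    have h3 := pow_dvd_pow 2 h2
    norm_num at h3 ⊢
    exact h3
  have h8c : ∀ l : ℕ, l.Prime → l ≠ 2 → 8 ∣ m / l ^ m.factorization l := by
    intro l hl hl2
    have e : l ^ m.factorization l * (m / l ^ m.factorization l) = m :=
      Nat.ordProj_mul_ordCompl_eq_self m l
    have h1 : Nat.Coprime 8 (l ^ m.factorization l) := by
      apply Nat.Coprime.pow_right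
      rw [show 8 = 2 ^ 3 by norm_num]
      exact Nat.Coprime.pow_left _ ((Nat.coprime_primes Nat.prime_two hl).2 hl2.symm)
    rw [← e] at h8
    exact h1.dvd_of_dvd_mul_left h8
  rcases cases4 j with rfl | rfl | rfl | hj3
  · obtain ⟨k, k1, k2, k3⟩ := exR m hm 2 Nat.prime_two 7 (by norm_num)
    refine ⟨k, k1, prod_neg M V 0 hj k ?_ fun i hi h => ?_⟩
    · rw [cc_0, c0_mod k 7 (k2.of_dvd ((by norm_num : 4 ∣ 8).trans h82))]
      show ((ZMod.χ₄ ((7 : ℕ) : ZMod 4) : ℤ) : ℝ) = -1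
      have : ZMod.χ₄ ((7 : ℕ) : ZMod 4) = -1 := by decide
      rw [this]; simp
    · rcases cases4 i with rfl | rfl | rfl | hi3
      · exact absurd rfl h
      · rw [cc_1, c1_mod k 7 (k2.of_dvd h82)]
        show ((ZMod.χ₈ ((7 : ℕ) : ZMod 8) : ℤ) : ℝ) = 1
        have : ZMod.χ₈ ((7 : ℕ) : ZMod 8) = 1 := by decide
        rw [this]; simp
      · exact absurd hi h3
      · rw [cc_3 M i hi3, cJ_mod i k 1 (k3.of_dvd (dvd_compl m hm 2 i Nat.prime_two (hVm i hi hi3).1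
          (by omega) (hVm i hi hi3).2)), map_one]
  · obtain ⟨k, k1, k2, k3⟩ := exR m hm 2 Nat.prime_two 5 (by norm_num)
    refine ⟨k, k1, prod_neg M V 1 hj k ?_ fun i hi h => ?_⟩
    · rw [cc_1, c1_mod k 5 (k2.of_dvd h82)]
      show ((ZMod.χ₈ ((5 : ℕ) : ZMod 8) : ℤ) : ℝ) = -1
      have : ZMod.χ₈ ((5 : ℕ) : ZMod 8) = -1 := by decide
      rw [this]; simp
    · rcases cases4 i with rfl | rfl | rfl | hi3
      · rw [cc_0, c0_mod k 5 (k2.of_dvd ((by norm_num : 4 ∣ 8).trans h82))]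
        show ((ZMod.χ₄ ((5 : ℕ) : ZMod 4) : ℤ) : ℝ) = 1
        have : ZMod.χ₄ ((5 : ℕ) : ZMod 4) = 1 := by decide
        rw [this]; simp
      · exact absurd rfl h
      · exact absurd hi h3
      · rw [cc_3 M i hi3, cJ_mod i k 1 (k3.of_dvd (dvd_compl m hm 2 i Nat.prime_two (hVm i hi hi3).1
          (by omega) (hVm i hi hi3).2)), map_one]
  · exact absurd hj h3
  · obtain ⟨hjp, hjm⟩ := hVm j hj hj3
    have hjf : Fact j.Prime := ⟨hjp⟩
    obtain ⟨g, hg⟩ := FiniteField.exists_nonsquare (F := ZMod j)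
      (by rw [ZMod.ringChar_zmod_n]; omega)
    have hgr : ¬ j ∣ g.val := by
      intro h
      rw [← ZMod.natCast_eq_zero_iff, ZMod.natCast_zmod_val] at h
      exact hg (h ▸ IsSquare.zero)
    obtain ⟨k, k1, k2, k3⟩ := exR m hm j hjp g.val hgr
    have hjd : j ∣ j ^ m.factorization j := by
      apply dvd_pow_self
      have := (hjp.dvd_iff_one_le_factorization hm.ne').1 hjm
      omega
    refine ⟨k, k1, prod_neg M V j hj k ?_ fun i hi h => ?_⟩
    · rw [cc_3 M j hj3]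
      have hkv : ((k : ℕ) : ZMod j) = g := by
        rw [(ZMod.natCast_eq_natCast_iff k g.val j).2 (k2.of_dvd hjd), ZMod.natCast_zmod_val]
      show ((jacobiSym (k : ℤ) j : ℤ) : ℝ) = -1
      have : jacobiSym (k : ℤ) j = -1 := by
        rw [leg, legendreSym.eq_neg_one_iff, Int.cast_natCast, hkv]
        exact hg
      rw [this]; simp
    · have hj2 : j ≠ 2 := by omega
      rcases cases4 i with rfl | rfl | rfl | hi3
      · rw [cc_0, c0_mod k 1 (k3.of_dvd ((by norm_num : 4 ∣ 8).trans (h8c j hjp hj2))), map_one]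
      · rw [cc_1, c1_mod k 1 (k3.of_dvd (h8c j hjp hj2)), map_one]
      · exact absurd hi h3
      · rw [cc_3 M i hi3, cJ_mod i k 1 (k3.of_dvd (dvd_compl m hm j i hjp (hVm i hi hi3).1
          h (hVm i hi hi3).2)), map_one]

/-- a number congruent to one modulo m which is a nonresidue modulo the product of the primes -/
theorem exK (m : ℕ) (W : Finset ℕ) (hW : W.Nonempty)
    (hp : ∀ u ∈ W, u.Prime ∧ u % 4 = 1 ∧ Nat.Coprime u m) :
    ∃ k : ℕ, k ≡ 1 [MOD m] ∧ Nat.Coprime k (∏ u ∈ W, u) ∧ jacobiSym (k : ℤ) (∏ u ∈ W, u) = -1 := by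
  obtain ⟨v, hv⟩ := hW
  have hvp := (hp v hv).1
  have hvf : Fact v.Prime := ⟨hvp⟩
  have hv2 : v ≠ 2 := by rintro rfl; have := (hp 2 hv).2.1; omega
  obtain ⟨g, hg⟩ := FiniteField.exists_nonsquare (F := ZMod v) (by rw [ZMod.ringChar_zmod_n]; exact hv2)
  set Q := ∏ u ∈ W.erase v, u with hQ
  have hM : ∏ u ∈ W, u = v * Q := (mul_prod_erase W (fun u => u) hv).symm
  have hcop : Nat.Coprime v (m * Q) := by
    refine Nat.Coprime.mul_right (hp v hv).2.2 ?_
    · rw [Nat.coprime_prod_right_iff]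
      intro u hu
      exact (Nat.coprime_primes hvp (hp u (mem_of_mem_erase hu)).1).2 (ne_of_mem_erase hu).symm
  obtain ⟨k, hk1, hk2⟩ := Nat.chineseRemainder hcop g.val 1
  have hk56 : k ≡ 1 [MOD m] := hk2.of_dvd (dvd_mul_right _ _)
  have hkQ : k ≡ 1 [MOD Q] := hk2.of_dvd (dvd_mul_left _ _)
  have hkv : ((k : ℕ) : ZMod v) = g := by
    rw [(ZMod.natCast_eq_natCast_iff k g.val v).2 hk1, ZMod.natCast_zmod_val]
  have hJQ : jacobiSym (k : ℤ) Q = 1 := by
    have h1 : jacobiSym (k : ℤ) Q = jacobiSym ((1 : ℕ) : ℤ) Q :=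
      jacobiSym.mod_left' ((Int.natCast_modEq_iff).2 hkQ)
    rw [h1, Nat.cast_one, jacobiSym.one_left]
  have hJv : jacobiSym (k : ℤ) v = -1 := by
    rw [leg, legendreSym.eq_neg_one_iff]
    rw [Int.cast_natCast, hkv]
    exact hg
  have hQ0 : Q ≠ 0 := by
    rw [hQ, prod_ne_zero_iff]
    intro u hu
    exact (hp u (mem_of_mem_erase hu)).1.ne_zero
  have : NeZero v := ⟨hvp.ne_zero⟩
  have : NeZero Q := ⟨hQ0⟩
  refine ⟨k, hk56, ?_, ?_⟩
  · rw [hM]
    refine Nat.Coprime.mul_right ?_ ?_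
    · rw [Nat.coprime_comm, Nat.Prime.coprime_iff_not_dvd hvp]
      intro h
      rw [← ZMod.natCast_eq_zero_iff, hkv] at h
      exact hg (h ▸ IsSquare.zero)
    · have := hkQ.gcd_eq
      rw [Nat.gcd_one_left] at this
      exact this
  · rw [hM, jacobiSym.mul_right, hJv, hJQ, mul_one]

/-- the constant -/
noncomputable def KK (m : ℕ) : ℝ := 4 + Real.log m

theorem KK_ge (m : ℕ) : 4 ≤ KK m := by
  unfold KK
  have := Real.log_natCast_nonneg m
  linarith

/-- the bounds of the L-functions -/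
theorem L_le (m : ℕ) (hm : 0 < m) (h8 : 8 ∣ m) (W : Finset ℕ) (hW : W.Nonempty)
    (hp : ∀ u ∈ W, u.Prime ∧ u % 4 = 1 ∧ Nat.Coprime u m)
    (V : Finset ℕ) (hVm : ∀ l ∈ V, 3 ≤ l → l.Prime ∧ l ∣ m) (hV : V.Nonempty) (σ : ℝ) (hσ : 1 < σ) :
    ∑' n : ℕ, (∏ i ∈ V, cc (∏ u ∈ W, u) i) n * (n : ℝ) ^ (-σ) ≤
      if 2 ∈ V then KK m * Real.log ((∏ u ∈ W, u : ℕ) : ℝ) else KK m := by
  set M := ∏ u ∈ W, u with hM
  obtain ⟨k, hk1, hk2, hk3⟩ := exK m W hW hp
  have hVd : ∀ l ∈ V, 3 ≤ l → l ∣ m := fun l hl h3 => (hVm l hl h3).2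
  split_ifs with h3
  · have hM1 : 5 ≤ M := by
      obtain ⟨v, hv⟩ := hW
      have h1 : v ∣ M := dvd_prod_of_mem (fun u => u) hv
      have h2 : 0 < M := by
        rw [hM]
        exact prod_pos fun u hu => (hp u hu).1.pos
      have h4 : 5 ≤ v := by
        have a1 := (hp v hv).1.two_le
        have a2 := (hp v hv).2.1
        omega
      exact h4.trans (Nat.le_of_dvd h2 h1)
    have hq : 1 ≤ m * M := Nat.mul_pos hm (by omega)
    have hper : ∀ n, (∏ i ∈ V, cc M i) (m * M + n) = (∏ i ∈ V, cc M i) n := by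
      intro n
      refine cc_mod m h8 M V hVd _ _ ?_ fun _ => ?_
      · show (m * M + n) % m = n % m
        rw [Nat.mul_add_mod]
      · show (m * M + n) % M = n % M
        rw [mul_comm m M, Nat.mul_add_mod]
    have hkneg : (∏ i ∈ V, cc M i) k = -1 := by
      refine prod_neg M V 2 h3 k ?_ fun i hi h => ?_
      · show ((jacobiSym (k : ℤ) M : ℤ) : ℝ) = -1
        rw [hk3]; simp
      · rcases cases4 i with rfl | rfl | rfl | hi3
        · rw [cc_0, c0_mod k 1 (hk1.of_dvd ((by norm_num : 4 ∣ 8).trans h8)), map_one]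
        · rw [cc_1, c1_mod k 1 (hk1.of_dvd h8), map_one]
        · exact absurd rfl h
        · rw [cc_3 M i hi3, cJ_mod i k 1 (hk1.of_dvd (hVd i hi hi3)), map_one]
    have hk56 : Nat.Coprime k m := by
      have := hk1.gcd_eq
      rw [Nat.gcd_one_left] at this
      exact this
    have hz := sum_zero (∏ i ∈ V, cc M i) (m * M) hq hper k (Nat.Coprime.mul_right hk56 hk2) hkneg
    have h5 := tsum_le (fun n => (∏ i ∈ V, cc M i) n) (m * M) hq (abs_cc M V)
      (part_le _ (m * M) hq (abs_cc M V) hper hz) σ hσ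
    refine h5.trans ?_
    have hM0 : (5 : ℝ) ≤ (M : ℝ) := by exact_mod_cast hM1
    have hm0 : (0 : ℝ) < (m : ℝ) := by exact_mod_cast hm
    rw [Nat.cast_mul, Real.log_mul hm0.ne' (by linarith)]
    have h6 : Real.log 4 ≤ Real.log M := Real.log_le_log (by norm_num) (by linarith)
    have h7 : Real.log 4 = 2 * Real.log 2 := by
      rw [← Real.log_rpow (by norm_num)]
      norm_num
    have h8 := Real.log_two_gt_d9
    have h9 := Real.log_natCast_nonneg m
    unfold KK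
    nlinarith
  · obtain ⟨k', hk1', hk2'⟩ := small_V m hm h8 M V hVm hV h3
    have hper : ∀ n, (∏ i ∈ V, cc M i) (m + n) = (∏ i ∈ V, cc M i) n := by
      intro n
      refine cc_mod m h8 M V hVd _ _ ?_ fun h => absurd h h3
      show (m + n) % m = n % m
      rw [Nat.add_mod_left]
    have hz := sum_zero (∏ i ∈ V, cc M i) m hm hper k' hk1' hk2'
    have h5 := tsum_le (fun n => (∏ i ∈ V, cc M i) n) m hm (abs_cc M V)
      (part_le _ m hm (abs_cc M V) hper hz) σ hσ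
    refine h5.trans ?_
    unfold KK
    linarith

/-- the symbols of a split prime -/
theorem cc_one (P : Par) (hok : Ok P) (L : Finset ℕ)
    (hL : ∀ l ∈ L, l.Prime ∧ l ≠ 2 ∧ l ∣ P.M)
    (hA : ∀ a ∈ P.A, a % 8 = 1 ∧ ∀ l ∈ L, jacobiSym (a : ℤ) l = 1)
    (W : Finset ℕ) (hp : ∀ u ∈ W, u.Prime ∧ u % 4 = 1)
    (p : ℕ) (h : Sp P p) (hpW : p ∉ W)
    (hs : ∑ u ∈ W, nr p u = 0) (i : ℕ) (hi : i = 0 ∨ i = 1 ∨ i = 2 ∨ i ∈ L) :
    cc (∏ u ∈ W, u) i p = 1 := by
  obtain ⟨h1, h2, h3⟩ := h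
  have hpf : Fact p.Prime := ⟨h1⟩
  obtain ⟨a1, a2⟩ := hA _ (lab_iff.1 h2)
  have h81 : p % 8 = 1 := by rwa [Nat.mod_mod_of_dvd p hok.h8] at a1
  rcases hi with rfl | rfl | rfl | hi
  · show c0 p = 1
    rw [c0_mod p 1 (show p % 4 = 1 % 4 by omega), map_one]
  · show c1 p = 1
    rw [c1_mod p 1 (show p % 8 = 1 % 8 by omega), map_one]
  · show ((jacobiSym (p : ℤ) (∏ u ∈ W, u) : ℤ) : ℝ) = 1
    have key : ∀ W' : Finset ℕ, W' ⊆ W →
        jacobiSym (p : ℤ) (∏ u ∈ W', u) = if ∑ u ∈ W', nr p u = 0 then 1 else -1 := by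
      intro W'
      induction W' using Finset.induction_on with
      | empty => intro _; simp
      | insert a s ha ih =>
        intro hs'
        have haW : a ∈ W := hs' (mem_insert_self a s)
        have ihs := ih ((subset_insert a s).trans hs')
        have hap := (hp a haW).1
        have ha8 := (hp a haW).2
        have haf : Fact a.Prime := ⟨hap⟩
        have : NeZero a := ⟨hap.ne_zero⟩
        have : NeZero (∏ u ∈ s, u) := ⟨by
          rw [prod_ne_zero_iff]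
          intro u hu
          exact (hp u (hs' (mem_insert_of_mem hu))).1.ne_zero⟩
        rw [prod_insert ha, sum_insert ha, jacobiSym.mul_right, ihs]
        have hodd : Odd a := Nat.odd_iff.2 (by omega)
        have hrec : jacobiSym (p : ℤ) a = jacobiSym (a : ℤ) p :=
          jacobiSym.quadratic_reciprocity_one_mod_four (by omega) hodd
        have hne : ((a : ℤ) : ZMod p) ≠ 0 := by
          intro h0
          rw [Int.cast_natCast, ZMod.natCast_eq_zero_iff] at h0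
          have := (Nat.prime_dvd_prime_iff_eq h1 hap).1 h0
          exact hpW (this ▸ haW)
        have hval : jacobiSym (p : ℤ) a = if nr p a = 0 then 1 else -1 := by
          rw [hrec, leg]
          unfold nr
          by_cases hsq : IsSquare (a : ZMod p)
          · rw [if_pos hsq, if_pos rfl]
            exact (legendreSym.eq_one_iff p hne).2 (by rwa [Int.cast_natCast])
          · rw [if_neg hsq, if_neg (by decide)]
            exact (legendreSym.eq_neg_one_iff p).2 (by rwa [Int.cast_natCast])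
        rw [hval]
        have hz : ∀ x y : ZMod 2, (if x = 0 then (1 : ℤ) else -1) * (if y = 0 then 1 else -1) =
            if x + y = 0 then 1 else -1 := by decide
        exact hz _ _
    rw [key W Subset.rfl, if_pos hs]
    simp
  · obtain ⟨hl1, hl2, hl3⟩ := hL i hi
    have hi3 : 3 ≤ i := by have := hl1.two_le; omega
    rw [cc_3 _ i hi3]
    have e : p % P.M ≡ p [MOD i] := (Nat.mod_modEq p P.M).of_dvd hl3
    rw [← cJ_mod i _ _ e]
    show ((jacobiSym ((p % P.M : ℕ) : ℤ) i : ℤ) : ℝ) = 1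
    rw [a2 i hi]
    simp

theorem t_HAL : S_HAL := by
  intro P hok
  obtain ⟨L, hL, hA, hcard⟩ := hok.ex
  set m := P.M with hm_def
  have hm := hok.pos
  have h8 := hok.h8
  obtain ⟨n, hn⟩ : ∃ n, n = 2 ^ (L.card + 2) := ⟨_, rfl⟩
  have hn1 : 1 ≤ n := by rw [hn]; exact Nat.one_le_two_pow
  have hK4 := KK_ge m
  set K := KK m with hK
  -- the constant
  refine ⟨6 * (3 * K ^ (2 * n)), ?_, fun W T hW hp0 hT => ?_⟩
  · have : (1 : ℝ) ≤ K ^ (2 * n) := one_le_pow₀ (by linarith)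
    linarith
  have hp : ∀ u ∈ W, u.Prime ∧ u % 4 = 1 ∧ Nat.Coprime u m :=
    fun u hu => ⟨(hp0 u hu).1, (hp0 u hu).2.2, hok.cop (Or.inl (hp0 u hu))⟩
  have hp' : ∀ u ∈ W, u.Prime ∧ u % 4 = 1 := fun u hu => ⟨(hp u hu).1, (hp u hu).2.1⟩
  set M := ∏ u ∈ W, u with hM
  have lT : 0 < Real.log T := Real.log_pos (by exact_mod_cast (by omega : 1 < T))
  obtain ⟨σ, hσd⟩ : ∃ σ : ℝ, σ = 1 + 1 / Real.log T := ⟨_, rfl⟩
  have hσ : 1 < σ := by
    rw [hσd]
    have : 0 < 1 / Real.log T := by positivity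
    linarith
  obtain ⟨Q, hPd⟩ : ∃ Q : Finset ℕ, Q = (range (T + 1)).filter
    (fun p => Sp P p ∧ p ∉ W ∧ ∑ u ∈ W, nr p u = 0) := ⟨_, rfl⟩
  have hP : ∀ p ∈ Q, Sp P p ∧ p ∉ W ∧ ∑ u ∈ W, nr p u = 0 := by
    intro p hp'
    rw [hPd, mem_filter] at hp'
    exact hp'.2
  -- the indices
  have h2L : 2 ∉ L := fun h => (hL 2 h).2.1 rfl
  have h1L : 1 ∉ L := fun h => Nat.not_prime_one (hL 1 h).1
  have h0L : 0 ∉ L := fun h => Nat.not_prime_zero (hL 0 h).1
  obtain ⟨U', hU'⟩ : ∃ U' : Finset ℕ, U' = insert 0 (insert 1 L) := ⟨_, rfl⟩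
  have hU'2 : 2 ∉ U' := by rw [hU']; simp [h2L]
  have hU'c : U'.card = L.card + 2 := by
    rw [hU', card_insert_of_notMem (by simp [h0L]), card_insert_of_notMem h1L]
  obtain ⟨U, hU⟩ : ∃ U : Finset ℕ, U = insert 2 U' := ⟨_, rfl⟩
  have hUc : U.card = L.card + 3 := by
    rw [hU, card_insert_of_notMem hU'2, hU'c]
  have hUm : ∀ i ∈ U, i = 0 ∨ i = 1 ∨ i = 2 ∨ i ∈ L := by
    intro i hi
    rw [hU, hU', mem_insert, mem_insert, mem_insert] at hi
    tauto
  have hUV : ∀ V ∈ U.powerset, ∀ l ∈ V, 3 ≤ l → l.Prime ∧ l ∣ m := by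
    intro V hV l hl h3
    rcases hUm l (mem_powerset.1 hV hl) with h | h | h | h
    · omega
    · omega
    · omega
    · exact ⟨(hL l h).1, (hL l h).2.2⟩
  have hmain := main_le (cc M) U (fun i _ n => cc_val M i n) σ hσ Q
    (fun p h => (hP p h).1.1)
    (fun i hi p h => cc_one P hok L hL hA W hp' p (hP p h).1 (hP p h).2.1 (hP p h).2.2 i (hUm i hi))
  -- the product of the values
  have hM1 : 1 ≤ Real.log (M : ℝ) := by
    obtain ⟨v, hv⟩ := hW
    have h1 : v ∣ M := dvd_prod_of_mem (fun u => u) hv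
    have h2 : 0 < M := by
      rw [hM]
      exact prod_pos fun u hu => (hp u hu).1.pos
    have h5 : 5 ≤ v := by
      have a1 := (hp v hv).1.two_le
      have a2 := (hp v hv).2.1
      omega
    have h3 : 5 ≤ M := h5.trans (Nat.le_of_dvd h2 h1)
    have h6 : Real.log 4 ≤ Real.log M := Real.log_le_log (by norm_num)
      (by exact_mod_cast (by omega : 4 ≤ M))
    have h7 : Real.log 4 = 2 * Real.log 2 := by
      rw [← Real.log_rpow (by norm_num)]
      norm_num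
    have h8 := Real.log_two_gt_d9
    linarith
  have hlog2 := Real.log_two_gt_d9
  have lT2 : Real.log 2 ≤ Real.log T := Real.log_le_log (by norm_num) (by exact_mod_cast hT)
  set Y := Real.log (M : ℝ) with hY
  have hprod : ∏ V ∈ U.powerset,
      ∑' n : ℕ, (∏ i ∈ V, cc M i) n * (n : ℝ) ^ (-σ) ≤
      3 * Real.log T * K ^ (2 * n) * Y ^ n := by
    have hsplit : ∏ V ∈ U.powerset, ∑' n : ℕ, (∏ i ∈ V, cc M i) n * (n : ℝ) ^ (-σ) =
        (∏ V ∈ U'.powerset, ∑' n : ℕ, (∏ i ∈ V, cc M i) n * (n : ℝ) ^ (-σ)) *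
        ∏ V ∈ U'.powerset, ∑' n : ℕ, (∏ i ∈ insert 2 V, cc M i) n * (n : ℝ) ^ (-σ) := by
      rw [hU, prod_powerset_insert hU'2]
    have hsub : ∀ V ∈ U'.powerset, V ∈ U.powerset := by
      intro V hV
      rw [mem_powerset] at hV ⊢
      rw [hU]
      exact hV.trans (subset_insert _ _)
    have hsub2 : ∀ V ∈ U'.powerset, insert 2 V ∈ U.powerset := by
      intro V hV
      rw [mem_powerset] at hV ⊢
      rw [hU]
      exact insert_subset_insert _ hV
    have hz1 : ∑' n : ℕ, (∏ i ∈ (∅ : Finset ℕ), cc M i) n * (n : ℝ) ^ (-σ) ≤ 3 * Real.log T := by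
      have e : ∑' n : ℕ, (∏ i ∈ (∅ : Finset ℕ), cc M i) n * (n : ℝ) ^ (-σ) =
          ∑' n : ℕ, (1 : ℝ) * (n : ℝ) ^ (-σ) := by
        refine tsum_congr fun n => ?_
        rw [prod_empty]
        rfl
      rw [e]
      refine (zeta_le σ hσ).trans ?_
      have e2 : 1 / (σ - 1) = Real.log T := by
        rw [hσd]
        field_simp
        ring
      rw [e2]
      linarith
    have hp1 : ∏ V ∈ U'.powerset, ∑' n : ℕ, (∏ i ∈ V, cc M i) n * (n : ℝ) ^ (-σ) ≤
        3 * Real.log T * K ^ n := by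
      rw [← mul_prod_erase U'.powerset _ (empty_mem_powerset U')]
      refine mul_le_mul hz1 ?_ (prod_nonneg fun V hV => hmain.2 V (hsub V (mem_of_mem_erase hV)))
        (by positivity)
      have h1 : ∏ V ∈ U'.powerset.erase ∅, ∑' n : ℕ, (∏ i ∈ V, cc M i) n * (n : ℝ) ^ (-σ) ≤
          ∏ V ∈ U'.powerset.erase ∅, K := by
        refine prod_le_prod (fun V hV => hmain.2 V (hsub V (mem_of_mem_erase hV))) fun V hV => ?_
        have hVU := hsub V (mem_of_mem_erase hV)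
        have h2 := L_le m hm h8 W hW hp V (hUV V hVU) (nonempty_iff_ne_empty.2 (ne_of_mem_erase hV))
          σ hσ
        have h2V : 2 ∉ V := fun h => hU'2 (mem_powerset.1 (mem_of_mem_erase hV) h)
        rw [if_neg h2V] at h2
        exact h2
      refine h1.trans ?_
      rw [prod_const]
      apply pow_le_pow_right₀ (by linarith)
      refine (card_le_card (erase_subset _ _)).trans ?_
      rw [card_powerset, hU'c, hn]
    have hp2 : ∏ V ∈ U'.powerset, ∑' n : ℕ, (∏ i ∈ insert 2 V, cc M i) n * (n : ℝ) ^ (-σ) ≤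
        K ^ n * Y ^ n := by
      have h1 : ∏ V ∈ U'.powerset, ∑' n : ℕ, (∏ i ∈ insert 2 V, cc M i) n * (n : ℝ) ^ (-σ) ≤
          ∏ V ∈ U'.powerset, (K * Y) := by
        refine prod_le_prod (fun V hV => hmain.2 _ (hsub2 V hV)) fun V hV => ?_
        have h2 := L_le m hm h8 W hW hp (insert 2 V) (hUV _ (hsub2 V hV)) (insert_nonempty _ _)
          σ hσ
        rw [if_pos (mem_insert_self _ _)] at h2
        exact h2
      refine h1.trans (le_of_eq ?_)
      rw [prod_const, card_powerset, hU'c, ← hn, mul_pow]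
    rw [hsplit]
    have h0 : 0 ≤ ∏ V ∈ U'.powerset, ∑' n : ℕ, (∏ i ∈ insert 2 V, cc M i) n * (n : ℝ) ^ (-σ) :=
      prod_nonneg fun V hV => hmain.2 _ (hsub2 V hV)
    refine (mul_le_mul hp1 hp2 h0 (by positivity)).trans (le_of_eq ?_)
    ring
  have hbig := hmain.1.trans hprod
  have hc : 2 ^ U.card = 2 * n := by rw [hUc, hn]; ring
  rw [hc] at hbig
  -- the sum
  have hx : ∀ p ∈ Q, 0 < (p : ℝ) ^ (-σ) ∧ (p : ℝ) ^ (-σ) < 1 := fun p h =>
    pow_small p (hP p h).1.1.two_le σ hσ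
  have hsum : ∑ S ∈ HD P W T, (1 : ℝ) / ((∏ p ∈ S, p : ℕ) : ℝ) ≤
      3 * ∏ p ∈ Q, (1 - (p : ℝ) ^ (-σ))⁻¹ := by
    have s1 : ∑ S ∈ HD P W T, (1 : ℝ) / ((∏ p ∈ S, p : ℕ) : ℝ) ≤
        ∑ S ∈ Q.powerset, 3 * ∏ p ∈ S, (p : ℝ) ^ (-σ) := by
      have hsub : HD P W T ⊆ Q.powerset := by
        intro S hS
        unfold HD at hS
        rw [mem_filter, mem_powerset] at hS
        rw [mem_powerset]
        intro p hpS
        rw [hPd, mem_filter]
        exact ⟨hS.1 hpS, hS.2.1 p hpS⟩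
      refine le_trans (sum_le_sum fun S hS => ?_) (sum_le_sum_of_subset_of_nonneg hsub
        fun S hS _ => ?_)
      · have hSP := hsub hS
        rw [mem_powerset] at hSP
        unfold HD at hS
        rw [mem_filter] at hS
        have hle := hS.2.2
        have hpos : 0 < ∏ p ∈ S, p := prod_pos fun p h => (hP p (hSP h)).1.1.pos
        have e : ∏ p ∈ S, (p : ℝ) ^ (-σ) = ((∏ p ∈ S, p : ℕ) : ℝ) ^ (-σ) := by
          rw [Nat.cast_prod, Real.finsetProd_rpow]
          intro p _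
          exact Nat.cast_nonneg p
        rw [e]
        generalize ∏ p ∈ S, p = N at hle hpos ⊢
        have hN : (0 : ℝ) < (N : ℝ) := by exact_mod_cast hpos
        have hNT : (N : ℝ) ≤ (T : ℝ) := by exact_mod_cast hle
        have hN1 : (1 : ℝ) ≤ (N : ℝ) := by exact_mod_cast hpos
        have h2 : (N : ℝ) ^ (σ - 1) ≤ 3 := by
          have a1 : (N : ℝ) ^ (σ - 1) = Real.exp (Real.log N * (σ - 1)) :=
            Real.rpow_def_of_pos hN _
          have a2 : Real.log N * (σ - 1) ≤ 1 := by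
            have a3 : σ - 1 = 1 / Real.log T := by rw [hσd]; ring
            rw [a3, mul_one_div, div_le_one lT]
            exact Real.log_le_log hN hNT
          rw [a1]
          exact (Real.exp_le_exp.2 a2).trans (Real.exp_one_lt_d9.le.trans (by norm_num))
        have h3 : (N : ℝ) ^ (σ - 1) * (N : ℝ) ^ (-σ) = 1 / N := by
          rw [← Real.rpow_add hN]
          have : σ - 1 + -σ = -1 := by ring
          rw [this, Real.rpow_neg_one, one_div]
        rw [← h3]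
        exact mul_le_mul_of_nonneg_right h2 (Real.rpow_nonneg hN.le _)
      · refine mul_nonneg (by norm_num) (prod_nonneg fun p _ => Real.rpow_nonneg (Nat.cast_nonneg _) _)
    refine s1.trans ?_
    rw [← mul_sum, ← prod_one_add]
    refine mul_le_mul_of_nonneg_left (prod_le_prod (fun p h => ?_) fun p h => ?_) (by norm_num)
    · have := (hx p h).1
      positivity
    · obtain ⟨a1, a2⟩ := hx p h
      rw [← one_div, le_div_iff₀ (by linarith)]
      nlinarith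
  have hQ0 : 0 ≤ ∏ p ∈ Q, (1 - (p : ℝ) ^ (-σ))⁻¹ := by
    refine prod_nonneg fun p h => ?_
    obtain ⟨a1, a2⟩ := hx p h
    apply inv_nonneg.2
    linarith
  generalize ∏ p ∈ Q, (1 - (p : ℝ) ^ (-σ))⁻¹ = R at hbig hsum hQ0
  refine hsum.trans ?_
  -- exponents
  have hn0 : (0 : ℝ) < n := by exact_mod_cast hn1
  have hdA : 1 / ((2 * n : ℕ) : ℝ) ≤ dA P / 2 := by
    have h1 : (Nat.totient P.M : ℝ) ≤ n * P.A.card := by
      rw [hn]
      exact_mod_cast hcard
    have htot := hok.tot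
    unfold dA
    rw [div_div, div_le_div_iff₀ (by positivity) (by positivity)]
    push_cast
    nlinarith
  have hdA1 : dA P / 2 ≤ 1 := by
    have h1 := hok.dl_le
    have h2 := hok.dB_pos
    unfold dl at h1
    linarith
  have hl1 : (Real.log T) ^ (1 / ((2 * n : ℕ) : ℝ)) ≤ 2 * (Real.log T) ^ (dA P / 2 : ℝ) := by
    have e1 : (Real.log T) ^ (1 / ((2 * n : ℕ) : ℝ)) =
        (Real.log T) ^ (dA P / 2 : ℝ) * (Real.log T) ^ (1 / ((2 * n : ℕ) : ℝ) - dA P / 2) := by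
      rw [← Real.rpow_add lT]
      congr 1
      ring
    rw [e1, mul_comm (2 : ℝ)]
    apply mul_le_mul_of_nonneg_left _ (Real.rpow_nonneg lT.le _)
    have h2 : (Real.log T) ^ (1 / ((2 * n : ℕ) : ℝ) - dA P / 2) ≤
        (Real.log 2) ^ (1 / ((2 * n : ℕ) : ℝ) - dA P / 2) :=
      Real.rpow_le_rpow_of_nonpos (by linarith) lT2 (by linarith)
    refine h2.trans ?_
    have h3 : (Real.log 2) ^ (1 / ((2 * n : ℕ) : ℝ) - dA P / 2) ≤ (Real.log 2) ^ (-1 : ℝ) := by
      apply Real.rpow_le_rpow_of_exponent_ge (by linarith)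
      · have := Real.log_two_lt_d9
        linarith
      · have : 0 < 1 / ((2 * n : ℕ) : ℝ) := by positivity
        linarith
    refine h3.trans ?_
    rw [Real.rpow_neg_one]
    rw [inv_le_comm₀ (by linarith) (by norm_num)]
    linarith
  have hR : R ≤ (3 * K ^ (2 * n)) * Y ^ (1 / 2 : ℝ) * (Real.log T) ^ (1 / ((2 * n : ℕ) : ℝ)) := by
    have hY0 : 0 < Y := by linarith
    have hC1 : (1 : ℝ) ≤ 3 * K ^ (2 * n) := by
      have : (1 : ℝ) ≤ K ^ (2 * n) := one_le_pow₀ (by linarith)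
      linarith
    apply le_of_pow_le_pow_left₀ (n := 2 * n) (by omega) (by positivity)
    have e1 : ((3 * K ^ (2 * n)) * Y ^ (1 / 2 : ℝ) * (Real.log T) ^ (1 / ((2 * n : ℕ) : ℝ))) ^ (2 * n)
        = (3 * K ^ (2 * n)) ^ (2 * n) * Y ^ n * Real.log T := by
      rw [mul_pow, mul_pow, ← Real.rpow_natCast (Y ^ (1 / 2 : ℝ)), ← Real.rpow_mul hY0.le,
        ← Real.rpow_natCast (Real.log T ^ (1 / ((2 * n : ℕ) : ℝ))), ← Real.rpow_mul lT.le]
      have e2 : Y ^ ((1 / 2 : ℝ) * ((2 * n : ℕ) : ℝ)) = Y ^ n := by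
        rw [← Real.rpow_natCast Y n]
        congr 1
        push_cast
        ring
      have e3 : (Real.log T) ^ (1 / ((2 * n : ℕ) : ℝ) * ((2 * n : ℕ) : ℝ)) = Real.log T := by
        have : (1 / ((2 * n : ℕ) : ℝ) * ((2 * n : ℕ) : ℝ)) = 1 := by
          have : ((2 * n : ℕ) : ℝ) ≠ 0 := by positivity
          field_simp
        rw [this, Real.rpow_one]
      rw [e2, e3]
    rw [e1]
    refine hbig.trans ?_
    have h1 : 3 * K ^ (2 * n) ≤ (3 * K ^ (2 * n)) ^ (2 * n) := by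
      apply le_self_pow₀ hC1
      omega
    have h2 : 0 ≤ Y ^ n * Real.log T := by positivity
    calc 3 * Real.log T * K ^ (2 * n) * Y ^ n = (3 * K ^ (2 * n)) * (Y ^ n * Real.log T) := by ring
      _ ≤ (3 * K ^ (2 * n)) ^ (2 * n) * (Y ^ n * Real.log T) :=
          mul_le_mul_of_nonneg_right h1 h2
      _ = _ := by ring
  have hY0 : 0 < Y := by linarith
  calc 3 * R ≤ 3 * ((3 * K ^ (2 * n)) * Y ^ (1 / 2 : ℝ) *
        (Real.log T) ^ (1 / ((2 * n : ℕ) : ℝ))) := by linarith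
    _ ≤ 3 * ((3 * K ^ (2 * n)) * Y ^ (1 / 2 : ℝ) *
        (2 * (Real.log T) ^ (dA P / 2 : ℝ))) := by
        apply mul_le_mul_of_nonneg_left _ (by norm_num)
        apply mul_le_mul_of_nonneg_left hl1 (by positivity)
    _ = 6 * (3 * K ^ (2 * n)) * Y ^ (1 / 2 : ℝ) * (Real.log T) ^ (dA P / 2 : ℝ) := by ring

end Pool.Agent.H68.G.HAL
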