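import Pool.Agent.H68.G.Stm
import Pool.Agent.H68.L.R_seed8.Y302.CQ.LowA

/-!
The lower bound for the size of the class (after helper302's file for project CQ).
-/

set_option autoImplicit false
set_option linter.unusedVariables false

open scoped Classical

namespace Pool.Agent.H68.G.LOW

open Finset
open Pool.Agent.H68.G
open Pool.Agent.Y302.CQ (P2 M1 G1_lower)
open Pool.Agent.Y703.CQ (nr sg prs HB S_EQ ext GdA S_SYM S_C2 S_LA c2)

/-- the class without the correcting primes -/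
def cls (P : Par) (Q : Finset ℕ) (p : ℕ) : Prop := (Sp P p ∨ In P p) ∧ p ∉ Q

/-- the residues outside the class -/
def Res (P : Par) : Finset ℕ := (range P.M).filter fun a => Nat.Coprime a P.M ∧
  ¬ (a ∈ P.A ∪ P.B)

theorem card_Res {P : Par} (hok : Ok P) :
    ((Res P).card : ℝ) / (Nat.totient P.M : ℝ) = 1 - dl P := by
  have h1 : (Res P).card + (P.A.card + P.B.card) = Nat.totient P.M := by
    rw [← Finset.card_union_of_disjoint hok.dis, Nat.totient_eq_card_coprime]
    have e : ((range P.M).filter fun a => Nat.Coprime P.M a) = Res P ∪ (P.A ∪ P.B) := by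
      ext a
      rw [mem_filter, mem_union, Res, mem_filter, mem_range]
      constructor
      · rintro ⟨h1, h2⟩
        by_cases h : a ∈ P.A ∪ P.B
        · exact Or.inr h
        · exact Or.inl ⟨h1, h2.symm, h⟩
      · rintro (⟨h1, h2, -⟩ | h)
        · exact ⟨h1, h2.symm⟩
        · rcases mem_union.1 h with h | h
          · exact ⟨(hok.hA a h).1, (hok.hA a h).2.1.symm⟩
          · exact ⟨(hok.hB a h).1, (hok.hB a h).2.symm⟩
    have hd : Disjoint (Res P) (P.A ∪ P.B) := by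
      rw [Finset.disjoint_left]
      intro a ha hb
      rw [Res, mem_filter] at ha
      exact ha.2.2 hb
    rw [e, Finset.card_union_of_disjoint hd]
  have h2 : ((Res P).card : ℝ) + (P.A.card + P.B.card) = (Nat.totient P.M : ℝ) := by
    exact_mod_cast h1
  have h3 := hok.tot
  unfold dl dA dB
  rw [eq_sub_iff_add_eq, ← add_div, ← add_div, h2, div_self h3.ne']

/-- Mertens' theorem for the primes outside the class. -/
theorem mert (hM : S_MER) {P : Par} (hok : Ok P) (Q : Finset ℕ) : ∃ C : ℝ, ∀ y : ℕ, 3 ≤ y →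
    ∑ p ∈ P2 (cls P Q) y, (1 : ℝ) / p ≤ (1 - dl P) * Real.log (Real.log y) + C := by
  have hM' : ∀ a : ℕ, ∃ C : ℝ, a < P.M ∧ Nat.Coprime a P.M → ∀ y : ℕ, 3 ≤ y →
      |∑ p ∈ (range (y + 1)).filter (fun p => p.Prime ∧ p % P.M = a), (1 : ℝ) / p -
        1 / (Nat.totient P.M : ℝ) * Real.log (Real.log y)| ≤ C := by
    intro a
    by_cases ha : a < P.M ∧ Nat.Coprime a P.M
    · obtain ⟨C, hC⟩ := hM P hok a ha.1 ha.2
      exact ⟨C, fun _ => hC⟩
    · exact ⟨0, fun h => absurd h ha⟩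
  choose C hC using hM'
  obtain ⟨E, hE⟩ : ∃ E, E = Q ∪ P.M.primeFactors := ⟨_, rfl⟩
  refine ⟨∑ p ∈ E, (1 : ℝ) / p + ∑ a ∈ Res P, C a, ?_⟩
  intro y hy
  have h1 := Finset.sum_filter_add_sum_filter_not (P2 (cls P Q) y)
    (fun p => p ∈ E) (fun p => (1 : ℝ) / p)
  have h2 : ∑ p ∈ (P2 (cls P Q) y).filter (fun p => p ∈ E), (1 : ℝ) / p ≤
      ∑ p ∈ E, (1 : ℝ) / p := by
    apply Finset.sum_le_sum_of_subset_of_nonneg
    · intro p hp
      exact (mem_filter.mp hp).2
    · intro p _ _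
      positivity
  have hmaps : ∀ p ∈ (P2 (cls P Q) y).filter (fun p => ¬ p ∈ E),
      p % P.M ∈ Res P := by
    intro p hp
    rw [mem_filter, P2, mem_filter] at hp
    obtain ⟨⟨_, hpp, hpc⟩, hp4⟩ := hp
    rw [hE, mem_union, not_or] at hp4
    obtain ⟨hQ, hm⟩ := hp4
    rw [Res, mem_filter, mem_range]
    refine ⟨Nat.mod_lt _ hok.pos, ?_, ?_⟩
    · have h3 : Nat.Coprime p P.M := by
        rw [Nat.Prime.coprime_iff_not_dvd hpp]
        intro h4
        exact hm (Nat.mem_primeFactors.2 ⟨hpp, h4, hok.pos.ne'⟩)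
      have h4 : Nat.gcd P.M p = Nat.gcd (p % P.M) P.M := Nat.gcd_rec P.M p
      unfold Nat.Coprime at h3 ⊢
      rw [← h4, Nat.gcd_comm]
      exact h3
    · intro h
      rcases mem_union.1 h with h | h
      · have h5 : lab P p = 1 := lab_iff.2 h
        exact hpc ⟨Or.inl ⟨hpp, h5, hok.mod4 h5⟩, hQ⟩
      · have h5 : lab P p ≠ 1 := fun h' =>
          (Finset.disjoint_left.1 hok.dis) (lab_iff.1 h') h
        exact hpc ⟨Or.inr ⟨hpp, h5, h⟩, hQ⟩
  have h3 : ∑ p ∈ (P2 (cls P Q) y).filter (fun p => ¬ p ∈ E), (1 : ℝ) / p ≤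
      ∑ a ∈ Res P, (1 / (Nat.totient P.M : ℝ) * Real.log (Real.log y) + C a) := by
    rw [← Finset.sum_fiberwise_of_maps_to hmaps]
    apply Finset.sum_le_sum
    intro a ha
    have hco : a < P.M ∧ Nat.Coprime a P.M := by
      rw [Res, mem_filter, mem_range] at ha
      exact ⟨ha.1, ha.2.1⟩
    have h4 := (abs_le.mp (hC a hco y hy)).2
    have h5 : ∑ p ∈ ((P2 (cls P Q) y).filter (fun p => ¬ p ∈ E)).filter
        (fun p => p % P.M = a), (1 : ℝ) / p ≤
        ∑ p ∈ (range (y + 1)).filter (fun p => p.Prime ∧ p % P.M = a), (1 : ℝ) / p := by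
      apply Finset.sum_le_sum_of_subset_of_nonneg
      · intro p hp
        rw [mem_filter, mem_filter, P2, mem_filter] at hp
        rw [mem_filter]
        exact ⟨hp.1.1.1, hp.1.1.2.1, hp.2⟩
      · intro p _ _
        positivity
    linarith
  rw [← h1]
  have h4 : ∑ a ∈ Res P, (1 / (Nat.totient P.M : ℝ) * Real.log (Real.log y) + C a) =
      (1 - dl P) * Real.log (Real.log y) + ∑ a ∈ Res P, C a := by
    rw [Finset.sum_add_distrib, Finset.sum_const, nsmul_eq_mul, ← card_Res hok]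
    ring
  rw [h4] at h3
  linarith

theorem mem_M1 {P : Par} {Q : Finset ℕ} {y : ℕ} {S : Finset ℕ} (h : S ∈ M1 (cls P Q) y) :
    (∀ p ∈ S, p.Prime ∧ cls P Q p ∧ p ≤ y) ∧ ∏ p ∈ S, p ≤ y := by
  rw [M1, mem_filter, mem_powerset] at h
  refine ⟨fun p hp => ?_, h.2⟩
  have := h.1 hp
  rw [mem_filter, mem_range] at this
  exact ⟨this.2.1, this.2.2, by omega⟩

/-- the properties of the corrected sets -/
structure EV (P : Par) (Q : Finset ℕ) (ev : Finset ℕ → Finset ℕ) (y : ℕ) (T : Finset ℕ) : Prop where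
  cl : ∀ p ∈ ev T, (Sp P p ∨ In P p) ∧ p ≤ y
  cT : (∏ p ∈ ev T, p) % P.M ∈ P.T
  er : ev T \ Q = T
  pr : ∏ p ∈ ev T, p ≤ (∏ p ∈ Q, p) * ∏ p ∈ T, p
  po : 0 < ∏ p ∈ ev T, p

theorem ev_exists {P : Par} (hok : Ok P) : ∃ (Q : Finset ℕ) (ev : Finset ℕ → Finset ℕ),
    (∀ q ∈ Q, In P q) ∧ ∀ (y : ℕ) (T : Finset ℕ), ∏ p ∈ Q, p ≤ y → T ∈ M1 (cls P Q) y →
      EV P Q ev y T := by
  obtain ⟨Q, hQ, hcor⟩ := hok.cor
  choose! U hU hUT using hcor
  refine ⟨Q, fun T => T ∪ U T, hQ, fun y T hy hT => ?_⟩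
  obtain ⟨h1, h2⟩ := mem_M1 hT
  have hcl : ∀ p ∈ T, Sp P p ∨ In P p := fun p hp => (h1 p hp).2.1.1
  have hUQ := hU T hcl
  have hdis : Disjoint T (U T) := by
    rw [Finset.disjoint_left]
    intro p hp hp'
    exact (h1 p hp).2.1.2 (hUQ hp')
  have hQ0 : ∀ q ∈ Q, 0 < q := fun q hq => (hQ q hq).1.pos
  have hUle : ∏ p ∈ U T, p ≤ ∏ p ∈ Q, p :=
    Nat.le_of_dvd (Finset.prod_pos hQ0) (Finset.prod_dvd_prod_of_subset _ _ _ hUQ)
  have hTpos : 0 < ∏ p ∈ T, p := Finset.prod_pos fun p hp => (h1 p hp).1.pos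
  have hUpos : 0 < ∏ p ∈ U T, p := Finset.prod_pos fun p hp => hQ0 p (hUQ hp)
  refine ⟨?_, ?_, ?_, ?_, ?_⟩
  · intro p hp
    rcases mem_union.1 hp with hp | hp
    · exact ⟨hcl p hp, (h1 p hp).2.2⟩
    · refine ⟨Or.inr (hQ p (hUQ hp)), le_trans ?_ hy⟩
      exact Nat.le_of_dvd (Finset.prod_pos hQ0) (Finset.dvd_prod_of_mem (fun p => p) (hUQ hp))
  · rw [Finset.prod_union hdis]
    exact hUT T hcl
  · ext p
    rw [mem_sdiff, mem_union]
    constructor
    · rintro ⟨h | h, h'⟩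
      · exact h
      · exact absurd (hUQ h) h'
    · intro h
      exact ⟨Or.inl h, (h1 p h).2.1.2⟩
  · rw [Finset.prod_union hdis, mul_comm]
    exact Nat.mul_le_mul_right _ hUle
  · rw [Finset.prod_union hdis]
    exact Nat.mul_pos hTpos hUpos

/-- the pairs -/
noncomputable def DD (P : Par) (Q : Finset ℕ) (ev : Finset ℕ → Finset ℕ) (X y : ℕ) :
    Finset (Σ _ : Finset ℕ, ℕ) :=
  (M1 (cls P Q) y).sigma fun T => (range (X / (∏ p ∈ ev T, p) + 1)).filter
    fun r => y < r ∧ r.Prime ∧ r % P.M = 1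

theorem card_DD_le {P : Par} (hok : Ok P) (Q : Finset ℕ) (ev : Finset ℕ → Finset ℕ) (X y : ℕ)
    (hev : ∀ T ∈ M1 (cls P Q) y, EV P Q ev y T) :
    (DD P Q ev X y).card ≤ (SS P X).card := by
  refine Finset.card_le_card_of_injOn (fun t => insert t.2 (ev t.1)) ?_ ?_
  · rintro ⟨T, r⟩ ht
    rw [mem_coe, DD, mem_sigma, mem_filter, mem_range] at ht
    obtain ⟨hT, hr, hry, hrp, hr56⟩ := ht
    obtain ⟨h1, h2⟩ := mem_M1 hT
    obtain ⟨k1, k2, k4, k5, k6⟩ := hev T hT
    simp only at hr hry hrp hr56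
    have hrT : r ∉ ev T := fun h => by have := (k1 r h).2; omega
    have hprod : r * ∏ p ∈ ev T, p ≤ X := by
      have : r ≤ X / ∏ p ∈ ev T, p := by omega
      exact (Nat.le_div_iff_mul_le k6).mp this
    -- the classes
    have hcl : Sp P r := by
      have h5 : lab P r = 1 := lab_iff.2 (by rw [hr56]; exact hok.one)
      exact ⟨hrp, h5, hok.mod4 h5⟩
    have hprod' : ∏ p ∈ insert r (ev T), p ≤ X := by
      rw [Finset.prod_insert hrT]
      exact hprod
    have hall : ∀ p ∈ insert r (ev T), Sp P p ∨ In P p := by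
      intro p hp
      rcases mem_insert.mp hp with rfl | hp
      · exact Or.inl hcl
      · exact (k1 p hp).1
    have hprime : ∀ p ∈ insert r (ev T), p.Prime := by
      intro p hp
      exact pr1 (hall p hp)
    rw [mem_coe, SS, mem_filter, mem_powerset]
    refine ⟨?_, ⟨hall, ?_⟩, hprod'⟩
    · intro p hp
      rw [mem_range]
      have h3 : p ∣ ∏ q ∈ insert r (ev T), q := Finset.dvd_prod_of_mem _ hp
      have h4 : 0 < ∏ q ∈ insert r (ev T), q := Finset.prod_pos fun q hq => (hprime q hq).pos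
      have := Nat.le_of_dvd h4 h3
      omega
    · rw [Finset.prod_insert hrT, Nat.mul_mod, hr56, one_mul, Nat.mod_mod]
      exact k2
  · rintro ⟨T, r⟩ ht ⟨T', r'⟩ ht' he
    rw [mem_coe, DD, mem_sigma, mem_filter, mem_range] at ht ht'
    obtain ⟨hT, hr, hry, hrp, hr56⟩ := ht
    obtain ⟨hT', hr', hry', hrp', hr56'⟩ := ht'
    obtain ⟨k1, k2, k4, k5, k6⟩ := hev T hT
    obtain ⟨k1', k2', k4', k5', k6'⟩ := hev T' hT'
    simp only at hr hry hrp hr56 hr' hry' hrp' hr56' he k1 k4 k1' k4'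
    have hrr : r = r' := by
      have : r ∈ insert r' (ev T') := by rw [← he]; exact mem_insert_self _ _
      rw [mem_insert] at this
      rcases this with h | h
      · exact h
      · have := (k1' r h).2
        omega
    subst hrr
    have hTT : ev T = ev T' := by
      have e1 : ∀ (S : Finset ℕ), (∀ p ∈ S, p ≤ y) →
          (insert r S).filter (fun p => p ≤ y) = S := by
        intro S hS
        ext p
        simp only [mem_filter, mem_insert]
        constructor
        · rintro ⟨rfl | h, h3⟩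
          · omega
          · exact h
        · intro h; exact ⟨Or.inr h, hS p h⟩
      rw [← e1 (ev T) fun p hp => (k1 p hp).2, he, e1 (ev T') fun p hp => (k1' p hp).2]
    have hTT2 : T = T' := by rw [← k4, ← k4', hTT]
    subst hTT2
    rfl

theorem exists_root (X : ℕ) : ∃ y : ℕ, y ^ 8 ≤ X ∧ X < (y + 1) ^ 8 := by
  refine ⟨Nat.sqrt (Nat.sqrt (Nat.sqrt X)), ?_, ?_⟩
  · have h1 := Nat.sqrt_le' X
    have h2 := Nat.sqrt_le' (Nat.sqrt X)
    have h3 := Nat.sqrt_le' (Nat.sqrt (Nat.sqrt X))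
    calc (Nat.sqrt (Nat.sqrt (Nat.sqrt X))) ^ 8 =
        (((Nat.sqrt (Nat.sqrt (Nat.sqrt X))) ^ 2) ^ 2) ^ 2 := by ring
      _ ≤ ((Nat.sqrt (Nat.sqrt X)) ^ 2) ^ 2 :=
          Nat.pow_le_pow_left (Nat.pow_le_pow_left h3 2) 2
      _ ≤ (Nat.sqrt X) ^ 2 := Nat.pow_le_pow_left h2 2
      _ ≤ X := h1
  · have h1 := Nat.lt_succ_sqrt' X
    have h2 := Nat.lt_succ_sqrt' (Nat.sqrt X)
    have h3 := Nat.lt_succ_sqrt' (Nat.sqrt (Nat.sqrt X))
    calc X < (Nat.sqrt X + 1) ^ 2 := h1
      _ ≤ ((Nat.sqrt (Nat.sqrt X) + 1) ^ 2) ^ 2 := Nat.pow_le_pow_left h2 2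
      _ ≤ (((Nat.sqrt (Nat.sqrt (Nat.sqrt X)) + 1) ^ 2) ^ 2) ^ 2 :=
          Nat.pow_le_pow_left (Nat.pow_le_pow_left h3 2) 2
      _ = _ := by ring

theorem log_le_two_sqrt {x : ℝ} (hx : 0 < x) : Real.log x ≤ 2 * Real.sqrt x := by
  have h1 : 0 < Real.sqrt x := Real.sqrt_pos.mpr hx
  have h2 : Real.log x = 2 * Real.log (Real.sqrt x) := by
    rw [Real.log_sqrt hx.le]; ring
  rw [h2]
  have := Real.log_le_sub_one_of_pos h1
  linarith

theorem t_LOW : S_LOW := by
  intro hM hche P hok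
  obtain ⟨Q, ev, hQ, hev⟩ := ev_exists hok
  obtain ⟨C, hC⟩ := mert hM hok Q
  obtain ⟨c, Y₀, hc, hche⟩ := hche P hok
  obtain ⟨q, hq⟩ : ∃ q, q = ∏ p ∈ Q, p := ⟨_, rfl⟩
  have hq0 : 0 < q := by
    rw [hq]; exact Finset.prod_pos fun p hp => (hQ p hp).1.pos
  have hq0' : (0 : ℝ) < q := by exact_mod_cast hq0
  obtain ⟨y₀, hy₀⟩ : ∃ y₀ : ℕ, y₀ = max (max (max 5 q) Y₀) ⌈8 / c⌉₊ := ⟨_, rfl⟩
  refine ⟨c / (4 * q) * (1 / 2 * Real.exp (-C)) / 16, y₀ ^ 8, by positivity, ?_⟩
  intro X hX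
  obtain ⟨y, hy1, hy2⟩ := exists_root X
  have hyy : y₀ ≤ y := by
    have : y₀ ^ 8 < (y + 1) ^ 8 := lt_of_le_of_lt hX hy2
    have := lt_of_pow_lt_pow_left₀ 8 (Nat.zero_le _) this
    omega
  have hy5 : 5 ≤ y := by
    have : 5 ≤ y₀ := by
      rw [hy₀]; exact ((le_max_left _ _).trans (le_max_left _ _)).trans (le_max_left _ _)
    omega
  have hyq : q ≤ y := by
    have : q ≤ y₀ := by
      rw [hy₀]; exact ((le_max_right _ _).trans (le_max_left _ _)).trans (le_max_left _ _)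
    omega
  have hyY : Y₀ ≤ y := by
    have : Y₀ ≤ y₀ := by rw [hy₀]; exact (le_max_right _ _).trans (le_max_left _ _)
    omega
  have hyc : 8 / c ≤ (y : ℝ) := by
    have h1 : 8 / c ≤ (⌈8 / c⌉₊ : ℝ) := Nat.le_ceil _
    have h2 : ⌈8 / c⌉₊ ≤ y := by
      have : ⌈8 / c⌉₊ ≤ y₀ := by rw [hy₀]; exact le_max_right _ _
      omega
    exact h1.trans (by exact_mod_cast h2)
  have hyR : (5 : ℝ) ≤ y := by exact_mod_cast hy5
  have hyX : y < X := by
    have : y < y ^ 8 := by
      calc y = y ^ 1 := (pow_one y).symm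
        _ < y ^ 8 := Nat.pow_lt_pow_right (by omega) (by norm_num)
    omega
  have hX1 : (1 : ℝ) < X := by exact_mod_cast (show 1 < X by omega)
  have hlogy : 0 < Real.log y := Real.log_pos (by linarith)
  have hlogX : 0 < Real.log X := Real.log_pos hX1
  have hlog16 : Real.log X ≤ 16 * Real.log y := by
    have h1 : X ≤ y ^ 16 := by
      have h2 : y + 1 ≤ y ^ 2 := by nlinarith
      calc X ≤ (y + 1) ^ 8 := hy2.le
        _ ≤ (y ^ 2) ^ 8 := Nat.pow_le_pow_left h2 8
        _ = y ^ 16 := by ring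
    have : Real.log X ≤ Real.log ((y : ℝ) ^ 16) := by
      apply Real.log_le_log (by linarith)
      exact_mod_cast h1
    rwa [Real.log_pow] at this
  -- the sum
  have hev' : ∀ T ∈ M1 (cls P Q) y, EV P Q ev y T := fun T hT => hev y T (by rw [← hq]; exact hyq) hT
  have hsum : ∑ T ∈ M1 (cls P Q) y, c / (4 * q) * (X / Real.log X) *
      ((1 : ℝ) / ((∏ p ∈ T, p : ℕ) : ℝ)) ≤ ((DD P Q ev X y).card : ℝ) := by
    rw [DD, Finset.card_sigma, Nat.cast_sum]
    refine Finset.sum_le_sum fun T hT => ?_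
    obtain ⟨h1, h2⟩ := mem_M1 hT
    obtain ⟨k1, k2, k4, k5, k6⟩ := hev' T hT
    obtain ⟨m, hm⟩ : ∃ m, m = ∏ p ∈ ev T, p := ⟨_, rfl⟩
    obtain ⟨n, hn⟩ : ∃ n, n = ∏ p ∈ T, p := ⟨_, rfl⟩
    rw [← hm] at k5 k6
    rw [← hn, ← hq] at k5
    rw [← hn] at h2
    rw [← hm, ← hn]
    have hn0 : 0 < n := by
      rw [hn]; exact Finset.prod_pos fun p hp => (h1 p hp).1.pos
    obtain ⟨Y, hYdef⟩ : ∃ Y, Y = X / m := ⟨_, rfl⟩
    have hYy : y ^ 6 ≤ Y := by
      rw [hYdef, Nat.le_div_iff_mul_le k6]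
      calc y ^ 6 * m ≤ y ^ 6 * y ^ 2 := by
            apply Nat.mul_le_mul_left
            calc m ≤ q * n := k5
              _ ≤ y * y := Nat.mul_le_mul hyq h2
              _ = y ^ 2 := by ring
        _ = y ^ 8 := by ring
        _ ≤ X := hy1
    have hy6 : y ≤ y ^ 6 := Nat.le_self_pow (by norm_num) y
    have hY0 : Y₀ ≤ Y := by omega
    have hYX : Y ≤ X := by rw [hYdef]; exact Nat.div_le_self _ _
    have hY1 : (1 : ℝ) < (Y : ℝ) := by exact_mod_cast (show 1 < Y by omega)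
    have hlY : 0 < Real.log (Y : ℝ) := Real.log_pos hY1
    have hlYX : Real.log (Y : ℝ) ≤ Real.log X :=
      Real.log_le_log (by linarith) (by exact_mod_cast hYX)
    have h3 := hche Y hY0
    -- discard the small primes
    have h4 : ((range (Y + 1)).filter fun p => p.Prime ∧ p % P.M = 1).card ≤
        ((range (Y + 1)).filter fun r => y < r ∧ r.Prime ∧ r % P.M = 1).card + (y + 1) := by
      have h5 : ((range (Y + 1)).filter fun p => p.Prime ∧ p % P.M = 1) ⊆
          ((range (Y + 1)).filter fun r => y < r ∧ r.Prime ∧ r % P.M = 1) ∪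
            range (y + 1) := by
        intro p hp
        rw [mem_filter] at hp
        rw [mem_union, mem_filter, mem_range]
        by_cases h : y < p
        · exact Or.inl ⟨mem_range.mp hp.1, h, hp.2⟩
        · right
          rw [mem_range]
          omega
      refine (Finset.card_le_card h5).trans ((Finset.card_union_le _ _).trans ?_)
      rw [Finset.card_range]
    have h4' : (((range (Y + 1)).filter fun p => p.Prime ∧ p % P.M = 1).card : ℝ) ≤
        (((range (Y + 1)).filter fun r => y < r ∧ r.Prime ∧ r % P.M = 1).card : ℝ) +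
          ((y : ℝ) + 1) := by
      exact_mod_cast h4
    have h6 : (y : ℝ) + 1 ≤ c / 2 * (Y / Real.log Y) := by
      have hs0 : 0 < Real.sqrt (Y : ℝ) := Real.sqrt_pos.mpr (by linarith)
      have hs1 : (y : ℝ) ^ 3 ≤ Real.sqrt (Y : ℝ) := by
        apply Real.le_sqrt_of_sq_le
        have : ((y : ℝ) ^ 3) ^ 2 = (y : ℝ) ^ 6 := by ring
        rw [this]
        exact_mod_cast hYy
      have hs2 : Real.sqrt (Y : ℝ) / 2 ≤ Y / Real.log Y := by
        rw [le_div_iff₀ hlY]
        have h7 := log_le_two_sqrt (show (0 : ℝ) < Y by linarith)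
        calc Real.sqrt (Y : ℝ) / 2 * Real.log Y ≤ Real.sqrt (Y : ℝ) / 2 * (2 * Real.sqrt Y) :=
              mul_le_mul_of_nonneg_left h7 (by positivity)
          _ = Real.sqrt (Y : ℝ) * Real.sqrt Y := by ring
          _ = Y := Real.mul_self_sqrt (by linarith)
      have hs3 : 8 ≤ c * (y : ℝ) := by
        rw [div_le_iff₀ hc] at hyc
        linarith
      calc (y : ℝ) + 1 ≤ 8 / 4 * (y * 1) := by linarith
        _ ≤ c * y / 4 * (y * y) := by
            apply mul_le_mul _ _ (by positivity) (by positivity)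
            · exact div_le_div_of_nonneg_right hs3 (by norm_num)
            · apply mul_le_mul_of_nonneg_left _ (by positivity)
              linarith
        _ = c / 2 * ((y : ℝ) ^ 3 / 2) := by ring
        _ ≤ c / 2 * (Real.sqrt Y / 2) := by
            apply mul_le_mul_of_nonneg_left _ (by positivity)
            exact div_le_div_of_nonneg_right hs1 (by norm_num)
        _ ≤ c / 2 * (Y / Real.log Y) := mul_le_mul_of_nonneg_left hs2 (by positivity)
    have h7 : c / 2 * (Y / Real.log Y) ≤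
        (((range (Y + 1)).filter fun r => y < r ∧ r.Prime ∧ r % P.M = 1).card : ℝ) := by
      have h8 : c * Y / Real.log Y = c / 2 * (Y / Real.log Y) + c / 2 * (Y / Real.log Y) := by ring
      rw [h8] at h3
      linarith
    rw [← hYdef]
    refine le_trans ?_ h7
    have hhalf : (X : ℝ) / (2 * m) ≤ (Y : ℝ) := by
      have h9 : X < m * Y + m := by
        rw [hYdef]
        have := Nat.div_add_mod X m
        have := Nat.mod_lt X k6
        omega
      have h10 : (X : ℝ) < m * (Y : ℝ) + m := by exact_mod_cast h9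
      have hm' : (0 : ℝ) < m := by exact_mod_cast k6
      rw [div_le_iff₀ (by positivity)]
      nlinarith
    have hm5 : (m : ℝ) ≤ q * n := by exact_mod_cast k5
    have hm' : (0 : ℝ) < m := by exact_mod_cast k6
    have hn' : (0 : ℝ) < n := by exact_mod_cast hn0
    have hX10 : (X : ℝ) / (2 * (q * n)) ≤ (X : ℝ) / (2 * m) := by
      apply div_le_div_of_nonneg_left (by positivity) (by positivity)
      linarith
    calc c / (4 * q) * (X / Real.log X) * ((1 : ℝ) / (n : ℝ)) =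
        c / 2 * (((X : ℝ) / (2 * (q * n))) / Real.log X) := by
          field_simp
          ring
      _ ≤ c / 2 * ((Y : ℝ) / Real.log X) := by
          apply mul_le_mul_of_nonneg_left _ (by positivity)
          apply div_le_div_of_nonneg_right _ hlogX.le
          exact hX10.trans hhalf
      _ ≤ c / 2 * ((Y : ℝ) / Real.log Y) := by
          apply mul_le_mul_of_nonneg_left _ (by positivity)
          apply div_le_div_of_nonneg_left (by positivity) hlY hlYX
  rw [← Finset.mul_sum] at hsum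
  have hG := G1_lower (cls P Q) (1 - dl P) C y (by omega) (hC y (by omega))
  have hdl : 1 - (1 - dl P) = dl P := by ring
  rw [hdl] at hG
  have hcard : ((DD P Q ev X y).card : ℝ) ≤ ((SS P X).card : ℝ) := by
    exact_mod_cast card_DD_le hok Q ev X y hev'
  refine le_trans ?_ (hsum.trans hcard)
  have h6 : 0 ≤ c / (4 * q) * (X / Real.log X) := by positivity
  refine le_trans ?_ (mul_le_mul_of_nonneg_left hG h6)
  have hdl0 : 0 ≤ dl P := hok.dl_pos.le
  have hdl1 : dl P ≤ 1 := hok.dl_le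
  have h7 : (Real.log X) ^ (dl P) ≤ 16 * (Real.log y) ^ (dl P) := by
    have h8 : (Real.log X) ^ (dl P) ≤ (16 * Real.log y) ^ (dl P) :=
      Real.rpow_le_rpow hlogX.le hlog16 hdl0
    rw [Real.mul_rpow (by norm_num) hlogy.le] at h8
    refine h8.trans ?_
    apply mul_le_mul_of_nonneg_right _ (by positivity)
    calc (16 : ℝ) ^ (dl P) ≤ 16 ^ (1 : ℝ) := Real.rpow_le_rpow_of_exponent_le (by norm_num) hdl1
      _ = 16 := Real.rpow_one _
  have h10 : (Real.log X) ^ (-1 + dl P : ℝ) = (Real.log X) ^ (dl P) / Real.log X := by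
    rw [Real.rpow_add hlogX, Real.rpow_neg_one]
    ring
  rw [h10]
  have hee : 0 < Real.exp (-C) := Real.exp_pos _
  calc c / (4 * q) * (1 / 2 * Real.exp (-C)) / 16 * X * ((Real.log X) ^ (dl P) / Real.log X)
      = c / (4 * q) * (X / Real.log X) * (1 / 2 * Real.exp (-C) / 16 * (Real.log X) ^ (dl P)) := by
        ring
    _ ≤ c / (4 * q) * (X / Real.log X) *
        (1 / 2 * Real.exp (-C) / 16 * (16 * (Real.log y) ^ (dl P))) := by
        apply mul_le_mul_of_nonneg_left _ h6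
        apply mul_le_mul_of_nonneg_left h7 (by positivity)
    _ = c / (4 * q) * (X / Real.log X) * (1 / 2 * Real.exp (-C) * (Real.log y) ^ (dl P)) := by ring

end Pool.Agent.H68.G.LOW
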