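import Pool.Agent.H68.G.Stm
import Pool.Agent.H68.L.R_seed8.Y405.CQ.MER

set_option autoImplicit false

/-!
# Mertens' theorem for the modulus of the parameters (from the library)
-/

namespace Pool.Agent.H68.G.MER

open Finset Filter
open Pool.Agent.H68.G

theorem t_MER : S_MER := by
  intro P hP a ha hc
  obtain ⟨C, -, hC⟩ := Pool.Agent.Y405.CQ.mertens_ap P.M hP.pos a ha hc
  refine ⟨C, fun y hy => ?_⟩
  have h1 := hC y hy
  have h3 : (range (y + 1)).filter (fun p => p.Prime ∧ p % P.M = a) =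
      (Icc 1 y).filter (fun p => p.Prime ∧ p % P.M = a) := by
    ext p
    rw [mem_filter, mem_filter, mem_range, mem_Icc]
    constructor
    · rintro ⟨g1, g2, g3⟩
      exact ⟨⟨g2.one_lt.le, by omega⟩, g2, g3⟩
    · rintro ⟨⟨g0, g1⟩, g2, g3⟩
      exact ⟨by omega, g2, g3⟩
  rw [h3]
  exact h1

end Pool.Agent.H68.G.MER
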