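import Pool.Agent.H68.G.Asy
import Pool.Agent.H68.G.BIL
import Pool.Agent.H68.L.R_seed8.Y356.CQ.EQ
import Pool.Agent.H68.L.R_seed8.Y839.CQ.SYM
import Pool.Agent.H68.L.R_seed8.Y948.CQ.C2
import Pool.Agent.H68.L.R_seed8.Y219.CQ.LA
import Pool.Agent.H68.G.BOX
import Pool.Agent.H68.G.KEY
import Pool.Agent.H68.G.CNT
import Pool.Agent.H68.G.HAL
import Pool.Agent.H68.G.MER
import Pool.Agent.H68.G.CHE
import Pool.Agent.H68.G.LOW
import Pool.Agent.H68.G.FEW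
import Pool.Agent.H68.G.BAD
import Pool.Agent.H68.G.NS
import Pool.Agent.H68.L.R_seed8.Y488.CX.Sie

/-!
# The exact proportion of the good `D`, general class

After projects CQ and SQ of the library (helpers 710, 356, 839, 948, 219, 657, 302, 697, 391, 488,
475, 362, 949, 405, 514, 703 and 413).
-/

set_option autoImplicit false

namespace Pool.Agent.H68.G

theorem t_DQ_all : S_DQ :=
  t_DQ BIL.t_BIL Pool.Agent.Y356.CQ.t_EQ
    (Pool.Agent.Y219.CQ.t_LA Pool.Agent.Y839.CQ.t_SYM Pool.Agent.Y948.CQ.t_C2)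
    BOX.t_BOX KEY.t_KEY CNT.t_CNT
    Pool.Agent.Y488.CX.t_SIE HAL.t_HAL BAD.t_BAD
    FEW.t_FEW MER.t_MER CHE.t_CHE
    LOW.t_LOW Pool.Agent.Y948.CQ.t_C2

theorem t_DEN : S_DEN := NS.t_NS t_DQ_all

end Pool.Agent.H68.G
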